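import Pool.Agent.H77RES.Box

set_option autoImplicit false
set_option linter.unusedSectionVars false

open Polynomial Filter Topology

namespace Pool.Agent.H77RES

variable {m n : ℕ}

/-! ### The fibre bound -/

open Classical in
lemma fiber_bound {H : ℕ} (hH : 0 < H) (i0 : II m n) (P : (II m n → ℤ) → Prop) (K : ℕ)
    (hK : ∀ v : II m n → ℤ,
      ((box m n H i0).filter (fun x => P (Function.update v i0 x))).card ≤ K) :
    dens m n H P ≤ (K : ℝ) / H := by
  rw [dens_eq]
  set S := (Box m n H).filter P with hS
  have h1mem : (1 : ℤ) ∈ box m n H i0 := by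
    unfold box
    split_ifs <;> rw [Finset.mem_Icc] <;> constructor <;> omega
  set B1 : Finset (II m n → ℤ) :=
    Fintype.piFinset (Function.update (box m n H) i0 {(1 : ℤ)}) with hB1
  have hcard : (B1.card : ℝ) * (box m n H i0).card = (Box m n H).card := by
    rw [Box_card, hB1, Fintype.card_piFinset]
    push_cast
    rw [← Finset.mul_prod_erase Finset.univ _ (Finset.mem_univ i0),
      ← Finset.mul_prod_erase Finset.univ (fun i => ((box m n H i).card : ℝ)) (Finset.mem_univ i0)]
    rw [Function.update_self, Finset.card_singleton]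
    have : ∏ x ∈ Finset.univ.erase i0, (((Function.update (box m n H) i0 {(1 : ℤ)} x).card : ℕ) : ℝ)
        = ∏ x ∈ Finset.univ.erase i0, ((box m n H x).card : ℝ) := by
      refine Finset.prod_congr rfl fun x hx => ?_
      rw [Function.update_of_ne (Finset.ne_of_mem_erase hx)]
    rw [this]
    push_cast
    ring
  have hle : S.card ≤ K * B1.card := by
    refine Finset.card_le_mul_card_image_of_maps_to
      (f := fun v : II m n → ℤ => Function.update v i0 (1 : ℤ)) ?_ K ?_
    · intro v hv
      have hv' := (Finset.mem_filter.1 hv).1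
      unfold Box at hv'
      rw [Fintype.mem_piFinset] at hv'
      rw [hB1, Fintype.mem_piFinset]
      intro i
      by_cases hi : i = i0
      · subst hi
        rw [Function.update_self, Function.update_self]
        exact Finset.mem_singleton_self _
      · rw [Function.update_of_ne hi, Function.update_of_ne hi]
        exact hv' i
    · intro w hw
      refine le_trans ?_ (hK w)
      refine Finset.card_le_card_of_injOn (fun v => v i0) ?_ ?_
      · intro v hv
        have hv1 := Finset.mem_filter.1 (Finset.mem_coe.1 hv)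
        have hv2 := Finset.mem_filter.1 hv1.1
        have hv3 := hv2.1
        unfold Box at hv3
        rw [Fintype.mem_piFinset] at hv3
        refine Finset.mem_coe.2 (Finset.mem_filter.2 ⟨hv3 i0, ?_⟩)
        have : Function.update w i0 (v i0) = v := by
          rw [← hv1.2, Function.update_idem, Function.update_eq_self]
        rw [this]
        exact hv2.2
      · intro v hv v' hv' h
        have h1 := (Finset.mem_filter.1 (Finset.mem_coe.1 hv)).2
        have h2 := (Finset.mem_filter.1 (Finset.mem_coe.1 hv')).2
        funext i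
        by_cases hi : i = i0
        · subst hi; exact h
        · have h3 := congrFun (h1.trans h2.symm) i
          rwa [Function.update_of_ne hi, Function.update_of_ne hi] at h3
  have hpos := Box_card_pos (m := m) (n := n) hH
  have hH' : (0 : ℝ) < H := by exact_mod_cast hH
  rw [div_le_div_iff₀ hpos hH', ← hcard]
  have h3 : (S.card : ℝ) ≤ K * B1.card := by exact_mod_cast hle
  have h4 : (H : ℝ) ≤ (box m n H i0).card := by exact_mod_cast box_card_ge H i0
  calc (S.card : ℝ) * H ≤ (K * B1.card) * (box m n H i0).card := by
        apply mul_le_mul h3 h4 hH'.le (by positivity)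
    _ = K * (B1.card * (box m n H i0).card) := by ring

/-! ### Schwartz–Zippel on the box -/

open Classical in
lemma sz_bound (p : MvPolynomial (II m n) ℤ) (hp : p ≠ 0) :
    ∃ C : ℝ, ∀ H : ℕ, 0 < H → dens m n H (fun v => MvPolynomial.eval v p = 0) ≤ C / H := by
  let e : II m n ≃ Fin (m + 1 + (n + 1)) := finSumFinEquiv
  set p' := MvPolynomial.rename e p with hp'
  have hp'0 : p' ≠ 0 := by
    rw [hp']
    intro h
    exact hp (MvPolynomial.rename_injective _ e.injective (by rw [h, map_zero]))
  refine ⟨∑ i, (p'.degreeOf i : ℝ), fun H hH => ?_⟩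
  have h1 := MvPolynomial.schwartz_zippel_sum_degreeOf hp'0 (fun i => box m n H (e.symm i))
  rw [dens_eq]
  have h2 : ((Box m n H).filter (fun v => MvPolynomial.eval v p = 0)).card =
      ((Fintype.piFinset (fun i => box m n H (e.symm i))).filter
        (fun x => MvPolynomial.eval x p' = 0)).card := by
    refine Finset.card_bij (fun v _ => fun i => v (e.symm i)) ?_ ?_ ?_
    · intro v hv
      obtain ⟨hv1, hv2⟩ := Finset.mem_filter.1 hv
      unfold Box at hv1
      rw [Fintype.mem_piFinset] at hv1
      refine Finset.mem_filter.2 ⟨?_, ?_⟩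
      · rw [Fintype.mem_piFinset]
        exact fun i => hv1 _
      · rw [hp', MvPolynomial.eval_rename]
        have : ((fun i => v (e.symm i)) ∘ e) = v := by
          funext i
          simp
        rw [this]
        exact hv2
    · intro v _ v' _ h
      funext i
      have := congrFun h (e i)
      simpa using this
    · intro x hx
      obtain ⟨hx1, hx2⟩ := Finset.mem_filter.1 hx
      rw [Fintype.mem_piFinset] at hx1
      refine ⟨x ∘ e, Finset.mem_filter.2 ⟨?_, ?_⟩, ?_⟩
      · unfold Box
        rw [Fintype.mem_piFinset]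
        intro i
        have := hx1 (e i)
        rw [Equiv.symm_apply_apply] at this
        exact this
      · rw [hp', MvPolynomial.eval_rename] at hx2
        exact hx2
      · funext i
        simp
  rw [h2]
  have h3 : ((Box m n H).card : ℝ) = ∏ i, (((box m n H (e.symm i)).card : ℕ) : ℝ) := by
    rw [Box_card]
    exact (Equiv.prod_comp e.symm (fun i => ((box m n H i).card : ℝ))).symm
  rw [h3]
  have h4 : ((((Fintype.piFinset (fun i => box m n H (e.symm i))).filter
        (fun x => MvPolynomial.eval x p' = 0)).card : ℝ)) /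
      (∏ i, (((box m n H (e.symm i)).card : ℕ) : ℝ)) ≤
      ∑ i, ((p'.degreeOf i : ℝ) / ((box m n H (e.symm i)).card : ℝ)) := by
    have h5 := (NNRat.cast_le (K := ℝ)).2 h1
    push_cast at h5
    convert h5
  refine le_trans h4 ?_
  rw [Finset.sum_div]
  refine Finset.sum_le_sum fun i _ => ?_
  have h5 : (H : ℝ) ≤ (box m n H (e.symm i)).card := by exact_mod_cast box_card_ge H _
  have hH' : (0 : ℝ) < H := by exact_mod_cast hH
  exact div_le_div_of_nonneg_left (by positivity) hH' h5

/-! ### Growth of polynomials on the box -/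

lemma mem_Box_abs {H : ℕ} {v : II m n → ℤ} (hv : v ∈ Box m n H) (i : II m n) : |v i| ≤ H := by
  unfold Box at hv
  rw [Fintype.mem_piFinset] at hv
  have := hv i
  unfold box at this
  split_ifs at this <;> rw [Finset.mem_Icc] at this <;> rw [abs_le] <;> constructor <;> omega

lemma natAbs_sum_le' {ι : Type*} (s : Finset ι) (f : ι → ℤ) :
    (∑ i ∈ s, f i).natAbs ≤ ∑ i ∈ s, (f i).natAbs := by
  classical
  induction s using Finset.induction_on with
  | empty => simp
  | insert a s ha ih =>
    rw [Finset.sum_insert ha, Finset.sum_insert ha]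
    exact le_trans (Int.natAbs_add_le _ _) (Nat.add_le_add_left ih _)

lemma growth (p : MvPolynomial (II m n) ℤ) : ∃ C κ : ℕ, ∀ H : ℕ, 0 < H → ∀ v : II m n → ℤ,
    (∀ i, |v i| ≤ H) → (MvPolynomial.eval v p).natAbs ≤ C * H ^ κ := by
  refine ⟨∑ d ∈ p.support, (p.coeff d).natAbs, p.totalDegree, fun H hH v hv => ?_⟩
  rw [MvPolynomial.eval_eq]
  refine le_trans (natAbs_sum_le' _ _) ?_
  rw [Finset.sum_mul]
  refine Finset.sum_le_sum fun d hd => ?_
  rw [Int.natAbs_mul]
  refine Nat.mul_le_mul_left _ ?_
  have h1 : (∏ i ∈ d.support, v i ^ d i).natAbs = ∏ i ∈ d.support, (v i).natAbs ^ d i := by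
    rw [← Int.natAbsHom_apply, map_prod]
    refine Finset.prod_congr rfl fun i _ => ?_
    rw [map_pow]
    rfl
  rw [h1]
  have h2 : ∏ i ∈ d.support, (v i).natAbs ^ d i ≤ ∏ i ∈ d.support, H ^ d i := by
    refine Finset.prod_le_prod' fun i _ => ?_
    refine Nat.pow_le_pow_left ?_ _
    have := abs_le.1 (hv i)
    omega
  refine le_trans h2 ?_
  rw [Finset.prod_pow_eq_pow_sum]
  refine Nat.pow_le_pow_right hH ?_
  exact MvPolynomial.le_totalDegree hd

end Pool.Agent.H77RES
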