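import Pool.Agent.H77RES.Count

set_option autoImplicit false
set_option linter.unusedSectionVars false

open Polynomial Filter Topology

namespace Pool.Agent.H77RES

/-- the range of the coordinate `i` -/
noncomputable def box (m n : ℕ) (H : ℕ) (i : II m n) : Finset ℤ :=
  if i = Sum.inl (Fin.last m) ∨ i = Sum.inr (Fin.last n) then Finset.Icc 1 (H : ℤ)
    else Finset.Icc (-(H : ℤ)) H

/-- the box of coefficient vectors -/
noncomputable def Box (m n : ℕ) (H : ℕ) : Finset (II m n → ℤ) := Fintype.piFinset (box m n H)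

/-- reduction modulo `q` -/
def cl (q : ℕ) {m n : ℕ} (v : II m n → ℤ) : II m n → ZMod q := fun i => (v i : ZMod q)

section one

lemma count_mod (a b : ℤ) (hab : a ≤ b + 1) {q : ℕ} (hq : 0 < q) (r : ZMod q) :
    |(((Finset.Icc a b).filter (fun x : ℤ => (x : ZMod q) = r)).card : ℝ) -
      ((b : ℝ) - a + 1) / q| ≤ 1 := by
  obtain ⟨z, rfl⟩ := ZMod.intCast_surjective r
  have h1 : (Finset.Icc a b).filter (fun x : ℤ => (x : ZMod q) = (z : ZMod q)) =
      (Finset.Ioc (a - 1) b).filter (fun x : ℤ => x ≡ z [ZMOD q]) := by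
    ext x
    rw [Finset.mem_filter, Finset.mem_filter, Finset.mem_Icc, Finset.mem_Ioc,
      ZMod.intCast_eq_intCast_iff]
    constructor
    · rintro ⟨⟨h1, h2⟩, h3⟩
      exact ⟨⟨by omega, h2⟩, h3⟩
    · rintro ⟨⟨h1, h2⟩, h3⟩
      exact ⟨⟨by omega, h2⟩, h3⟩
  rw [h1]
  have hq' : (0 : ℤ) < q := by exact_mod_cast hq
  have h2 := Int.Ioc_filter_modEq_card (a - 1) b hq' z
  have hqQ : (0 : ℚ) < ((q : ℤ) : ℚ) := by exact_mod_cast hq
  set A : ℚ := ((b : ℚ) - z) / ((q : ℤ) : ℚ) with hA
  set B : ℚ := (((a - 1 : ℤ) : ℚ) - z) / ((q : ℤ) : ℚ) with hB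
  have hBA : B ≤ A := by
    rw [hA, hB]
    apply div_le_div_of_nonneg_right _ hqQ.le
    have : ((a - 1 : ℤ) : ℚ) ≤ b := by exact_mod_cast (by omega : a - 1 ≤ b)
    linarith
  have hfl : ⌊B⌋ ≤ ⌊A⌋ := Int.floor_le_floor hBA
  rw [max_eq_left (by omega)] at h2
  have h3 : ((((Finset.Ioc (a - 1) b).filter (fun x : ℤ => x ≡ z [ZMOD q])).card : ℤ) : ℚ) =
      (⌊A⌋ : ℚ) - ⌊B⌋ := by
    rw [h2]; push_cast; ring
  have hAB : A - B = ((b : ℚ) - a + 1) / q := by
    rw [hA, hB]
    push_cast
    rw [← sub_div]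
    congr 1
    ring
  have f1 := Int.floor_le A
  have f2 := Int.lt_floor_add_one A
  have f3 := Int.floor_le B
  have f4 := Int.lt_floor_add_one B
  have h4 : |((((Finset.Ioc (a - 1) b).filter (fun x : ℤ => x ≡ z [ZMOD q])).card : ℤ) : ℚ) -
      ((b : ℚ) - a + 1) / q| ≤ 1 := by
    rw [h3, ← hAB, abs_le]
    constructor <;> linarith
  have h5 : (((|((((Finset.Ioc (a - 1) b).filter (fun x : ℤ => x ≡ z [ZMOD q])).card : ℤ) : ℚ) -
      ((b : ℚ) - a + 1) / q| : ℚ)) : ℝ) ≤ ((1 : ℚ) : ℝ) := by exact_mod_cast h4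
  push_cast at h5
  exact h5

end one

variable {m n : ℕ}

/-- the length of the coordinate `i` -/
lemma box_card (H : ℕ) (i : II m n) : ((box m n H i).card : ℤ) =
    if i = Sum.inl (Fin.last m) ∨ i = Sum.inr (Fin.last n) then (H : ℤ) else 2 * H + 1 := by
  unfold box
  split_ifs
  · rw [Int.card_Icc]; simp
  · rw [Int.card_Icc]
    rw [Int.toNat_of_nonneg (by omega)]
    ring

lemma box_card_ge (H : ℕ) (i : II m n) : H ≤ (box m n H i).card := by
  have := box_card (m := m) (n := n) H i
  split_ifs at this <;> omega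

lemma box_count (H : ℕ) (i : II m n) {q : ℕ} (hq : 0 < q) (r : ZMod q) :
    |(((box m n H i).filter (fun x : ℤ => (x : ZMod q) = r)).card : ℝ) -
      ((box m n H i).card : ℝ) / q| ≤ 1 := by
  have h1 := box_card (m := m) (n := n) H i
  unfold box at h1 ⊢
  split_ifs at h1 ⊢ with h
  · have h2 := count_mod 1 H (by omega) hq r
    have h3 : (((Finset.Icc 1 (H : ℤ)).card : ℤ) : ℝ) = ((H : ℤ) : ℝ) := by rw [h1]
    push_cast at h2 h3
    rw [h3]
    have h4 : ((H : ℝ) - 1 + 1) / q = (H : ℝ) / q := by ring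
    rw [h4] at h2
    exact h2
  · have h2 := count_mod (-(H : ℤ)) H (by omega) hq r
    have h3 : (((Finset.Icc (-(H : ℤ)) (H : ℤ)).card : ℤ) : ℝ) = ((2 * H + 1 : ℤ) : ℝ) := by
      rw [h1]
    push_cast at h2 h3
    rw [h3]
    have h4 : ((H : ℝ) - -(H : ℝ) + 1) / q = (2 * (H : ℝ) + 1) / q := by ring
    rw [h4] at h2
    exact h2

lemma Box_card (H : ℕ) : ((Box m n H).card : ℝ) = ∏ i, ((box m n H i).card : ℝ) := by
  unfold Box
  rw [Fintype.card_piFinset]
  push_cast
  rfl

lemma Box_card_pos {H : ℕ} (hH : 0 < H) : 0 < ((Box m n H).card : ℝ) := by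
  rw [Box_card]
  refine Finset.prod_pos fun i _ => ?_
  exact_mod_cast lt_of_lt_of_le hH (box_card_ge H i)

open Classical in
/-- the proportion of vectors of the box with the property `P` -/
noncomputable def dens (m n H : ℕ) (P : (II m n → ℤ) → Prop) : ℝ :=
  (((Box m n H).filter P).card : ℝ) / (Box m n H).card

lemma dens_eq (H : ℕ) (P : (II m n → ℤ) → Prop) [DecidablePred P] :
    dens m n H P = (((Box m n H).filter P).card : ℝ) / (Box m n H).card := by
  unfold dens
  congr!

lemma dens_nonneg (H : ℕ) (P : (II m n → ℤ) → Prop) : 0 ≤ dens m n H P := by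
  unfold dens; positivity

open Classical in
lemma dens_mono {H : ℕ} {P Q : (II m n → ℤ) → Prop} (h : ∀ v ∈ Box m n H, P v → Q v) :
    dens m n H P ≤ dens m n H Q := by
  unfold dens
  refine div_le_div_of_nonneg_right ?_ (by positivity)
  have : (Box m n H).filter P ⊆ (Box m n H).filter Q := by
    intro v hv
    rw [Finset.mem_filter] at hv ⊢
    exact ⟨hv.1, h v hv.1 hv.2⟩
  exact_mod_cast Finset.card_le_card this

open Classical in
lemma dens_or_le (H : ℕ) (P Q : (II m n → ℤ) → Prop) :
    dens m n H (fun v => P v ∨ Q v) ≤ dens m n H P + dens m n H Q := by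
  rw [dens_eq, dens_eq, dens_eq]
  rw [← add_div]
  refine div_le_div_of_nonneg_right ?_ (by positivity)
  have h1 : (Box m n H).filter (fun v => P v ∨ Q v) =
      (Box m n H).filter P ∪ (Box m n H).filter Q := by
    ext v
    simp only [Finset.mem_filter, Finset.mem_union]
    tauto
  rw [h1]
  exact_mod_cast Finset.card_union_le _ _

open Classical in
lemma dens_exists_le (H : ℕ) {ι : Type*} (s : Finset ι) (P : ι → (II m n → ℤ) → Prop) :
    dens m n H (fun v => ∃ i ∈ s, P i v) ≤ ∑ i ∈ s, dens m n H (P i) := by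
  induction s using Finset.induction_on with
  | empty =>
    have : dens m n H (fun v => ∃ i ∈ (∅ : Finset ι), P i v) = 0 := by
      rw [dens_eq]
      have h0 : ((Box m n H).filter (fun v => ∃ i ∈ (∅ : Finset ι), P i v)).card = 0 := by
        rw [Finset.card_eq_zero, Finset.filter_eq_empty_iff]
        rintro v - ⟨i, hi, -⟩
        exact absurd hi (Finset.notMem_empty i)
      rw [h0]
      simp
    rw [this]
    simp
  | insert a s ha ih =>
    rw [Finset.sum_insert ha]
    refine le_trans ?_ (add_le_add le_rfl ih)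
    refine le_trans (dens_mono (Q := fun v => P a v ∨ ∃ i ∈ s, P i v) ?_) (dens_or_le H _ _)
    rintro v _ ⟨i, hi, h⟩
    rcases Finset.mem_insert.1 hi with rfl | hi
    · exact Or.inl h
    · exact Or.inr ⟨i, hi, h⟩

open Classical in
lemma dens_class (H : ℕ) {q : ℕ} [NeZero q] (G : (II m n → ZMod q) → Prop) :
    dens m n H (fun v => G (cl q v)) = ∑ r ∈ Finset.univ.filter G,
      ∏ i, ((((box m n H i).filter (fun x : ℤ => (x : ZMod q) = r i)).card : ℝ) /
        (box m n H i).card) := by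
  unfold dens
  have h1 := Finset.card_eq_sum_card_fiberwise (f := fun v : II m n → ℤ => cl q v)
    (s := (Box m n H).filter (fun v => G (cl q v))) (t := Finset.univ.filter G) (by
      intro v hv
      have hv' := (Finset.mem_filter.1 hv).2
      exact Finset.mem_coe.2 (Finset.mem_filter.2 ⟨Finset.mem_univ _, hv'⟩))
  rw [h1]
  push_cast
  rw [Finset.sum_div]
  refine Finset.sum_congr rfl fun r hr => ?_
  have hr' : G r := (Finset.mem_filter.1 hr).2
  have h2 : ((Box m n H).filter (fun v => G (cl q v))).filter (fun v => cl q v = r) =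
      Fintype.piFinset (fun i => (box m n H i).filter (fun x : ℤ => (x : ZMod q) = r i)) := by
    ext v
    rw [Finset.mem_filter, Finset.mem_filter, Fintype.mem_piFinset]
    unfold Box
    rw [Fintype.mem_piFinset]
    constructor
    · rintro ⟨⟨h3, -⟩, h4⟩ i
      exact Finset.mem_filter.2 ⟨h3 i, congrFun h4 i⟩
    · intro h3
      have h4 : cl q v = r := funext fun i => (Finset.mem_filter.1 (h3 i)).2
      exact ⟨⟨fun i => (Finset.mem_filter.1 (h3 i)).1, by rw [h4]; exact hr'⟩, h4⟩
  rw [h2, Fintype.card_piFinset, Box_card, Finset.prod_div_distrib]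
  push_cast
  rfl

lemma tendsto_box_ratio (i : II m n) {q : ℕ} (hq : 0 < q) (r : ZMod q) :
    Tendsto (fun H : ℕ => ((((box m n H i).filter (fun x : ℤ => (x : ZMod q) = r)).card : ℝ) /
        (box m n H i).card)) atTop (𝓝 (1 / q)) := by
  rw [tendsto_iff_norm_sub_tendsto_zero]
  refine squeeze_zero' (Eventually.of_forall fun _ => norm_nonneg _) ?_
    tendsto_inv_atTop_nhds_zero_nat
  filter_upwards [eventually_gt_atTop 0] with H hH
  have h1 := box_count H i hq r
  have h2 : (0 : ℝ) < (box m n H i).card := by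
    exact_mod_cast lt_of_lt_of_le hH (box_card_ge H i)
  have h3 : (H : ℝ) ≤ (box m n H i).card := by exact_mod_cast box_card_ge H i
  have hH' : (0 : ℝ) < H := by exact_mod_cast hH
  set c := (((box m n H i).filter (fun x : ℤ => (x : ZMod q) = r)).card : ℝ)
  set l := ((box m n H i).card : ℝ)
  rw [Real.norm_eq_abs]
  have h4 : c / l - 1 / q = (c - l / q) / l := by field_simp
  rw [h4, abs_div, abs_of_pos h2, div_le_iff₀ h2]
  refine le_trans h1 ?_
  rw [inv_mul_eq_div, le_div_iff₀ hH', one_mul]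
  exact h3

open Classical in
lemma tendsto_dens_class {q : ℕ} [NeZero q] (G : (II m n → ZMod q) → Prop) :
    Tendsto (fun H : ℕ => dens m n H (fun v => G (cl q v))) atTop
      (𝓝 (((Finset.univ.filter G).card : ℝ) / (q : ℝ) ^ (m + n + 2))) := by
  simp only [dens_class]
  have h1 : (((Finset.univ.filter G).card : ℝ) / (q : ℝ) ^ (m + n + 2)) =
      ∑ r ∈ Finset.univ.filter G, ∏ i : II m n, (1 / (q : ℝ)) := by
    rw [Finset.prod_const, Finset.sum_const, nsmul_eq_mul, Finset.card_univ]
    have : Fintype.card (II m n) = m + n + 2 := by simp; ring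
    rw [this, one_div, inv_pow, div_eq_mul_inv]
  rw [h1]
  refine tendsto_finsetSum _ fun r _ => ?_
  refine tendsto_finsetProd _ fun i _ => ?_
  exact tendsto_box_ratio i (Nat.pos_of_ne_zero (NeZero.ne q)) (r i)

open Classical in
/-- The upper bound for classes modulo a prime `l ≤ H`. -/
lemma dens_class_le {H q : ℕ} (hq : 0 < q) (hqH : q ≤ H) (G : (II m n → ZMod q) → Prop) :
    dens m n H (fun v => G (cl q v)) ≤
      Nat.card {r : II m n → ZMod q | G r} * (2 / (q : ℝ)) ^ (m + n + 2) := by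
  have : NeZero q := ⟨hq.ne'⟩
  rw [dens_class]
  have h0 : Nat.card {r : II m n → ZMod q | G r} = (Finset.univ.filter G).card := by
    rw [Nat.card_eq_fintype_card]
    exact Fintype.card_subtype G
  rw [h0]
  have hq' : (0 : ℝ) < q := by exact_mod_cast hq
  have h1 : ∀ r ∈ Finset.univ.filter G, ∏ i : II m n,
      ((((box m n H i).filter (fun x : ℤ => (x : ZMod q) = r i)).card : ℝ) /
        (box m n H i).card) ≤ (2 / (q : ℝ)) ^ (m + n + 2) := by
    intro r _
    have h2 : (2 / (q : ℝ)) ^ (m + n + 2) = ∏ i : II m n, (2 / (q : ℝ)) := by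
      rw [Finset.prod_const, Finset.card_univ]
      congr 1
      simp
      ring
    rw [h2]
    refine Finset.prod_le_prod (fun i _ => by positivity) fun i _ => ?_
    have h3 := box_count H i hq (r i)
    have h4 : (q : ℝ) ≤ (box m n H i).card := by
      exact_mod_cast le_trans hqH (box_card_ge H i)
    have h5 : (0 : ℝ) < (box m n H i).card := lt_of_lt_of_le hq' h4
    rw [div_le_iff₀ h5]
    have h6 := (abs_le.1 h3).2
    have h7 : (1 : ℝ) ≤ ((box m n H i).card : ℝ) / q := by
      rw [le_div_iff₀ hq', one_mul]; exact h4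
    have h8 : 2 / (q : ℝ) * (box m n H i).card = 2 * (((box m n H i).card : ℝ) / q) := by ring
    rw [h8]
    linarith
  refine le_trans (Finset.sum_le_sum h1) ?_
  rw [Finset.sum_const, nsmul_eq_mul]

/-! Products over primes -/

/-- the primes up to `M` -/
def prs (M : ℕ) : Finset ℕ := (Finset.range (M + 1)).filter Nat.Prime

lemma mem_prs {M l : ℕ} : l ∈ prs M ↔ l.Prime ∧ l ≤ M := by
  unfold prs
  rw [Finset.mem_filter, Finset.mem_range]
  constructor
  · rintro ⟨h1, h2⟩; exact ⟨h2, by omega⟩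
  · rintro ⟨h1, h2⟩; exact ⟨by omega, h1⟩

open Classical in
/-- `card` of the good classes modulo `l` -/
noncomputable def gc (m n l : ℕ) : ℕ := Nat.card {r : II m n → ZMod l | GoodV r}

open Classical in
lemma tendsto_good (m n M : ℕ) :
    Tendsto (fun H : ℕ => dens m n H (fun v => ∀ l ∈ prs M, GoodV (cl l v))) atTop
      (𝓝 (∏ l ∈ prs M, ((gc m n l : ℝ) / (l : ℝ) ^ (m + n + 2)))) := by
  set Q : ℕ := ∏ l : prs M, (l : ℕ) with hQ
  have hpos : ∀ l : prs M, 0 < (l : ℕ) := fun l => (mem_prs.1 l.2).1.pos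
  have hQ0 : NeZero Q := ⟨(Finset.prod_pos fun l _ => hpos l).ne'⟩
  have hcop : Pairwise (Function.onFun Nat.Coprime (fun l : prs M => (l : ℕ))) := by
    intro a b hab
    exact (Nat.coprime_primes (mem_prs.1 a.2).1 (mem_prs.1 b.2).1).2 (fun h => hab (Subtype.ext h))
  let e : ZMod Q ≃+* Π l : prs M, ZMod (l : ℕ) := ZMod.prodEquivPi (fun l : prs M => (l : ℕ)) hcop
  let G : (II m n → ZMod Q) → Prop := fun r => ∀ l : prs M, GoodV (fun i => e (r i) l)
  have hG : ∀ v : II m n → ℤ, G (cl Q v) ↔ ∀ l ∈ prs M, GoodV (cl l v) := by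
    intro v
    have h1 : ∀ l : prs M, (fun i => e (cl Q v i) l) = cl (l : ℕ) v := by
      intro l
      funext i
      show e ((v i : ZMod Q)) l = (v i : ZMod (l : ℕ))
      rw [map_intCast]
      rfl
    constructor
    · intro h l hl
      have := h ⟨l, hl⟩
      rwa [h1] at this
    · intro h l
      show GoodV (fun i => e (cl Q v i) l)
      rw [h1]
      exact h l l.2
  have h2 := tendsto_dens_class (m := m) (n := n) (q := Q) G
  have h3 : (fun H : ℕ => dens m n H (fun v => G (cl Q v))) =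
      fun H : ℕ => dens m n H (fun v => ∀ l ∈ prs M, GoodV (cl l v)) := by
    funext H
    congr 1
    funext v
    exact propext (hG v)
  rw [h3] at h2
  have h4 : (Finset.univ.filter G).card = ∏ l ∈ prs M, gc m n l := by
    have e1 : (Finset.univ.filter G).card = Nat.card {r // G r} := by
      rw [Nat.card_eq_fintype_card]
      exact (Fintype.card_subtype G).symm
    have e2 : {r : II m n → ZMod Q // G r} ≃
        Π l : prs M, {w : II m n → ZMod (l : ℕ) // GoodV w} := by
      let e3 : (II m n → ZMod Q) ≃ (Π l : prs M, (II m n → ZMod (l : ℕ))) :=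
        (Equiv.piCongrRight (fun _ => e.toEquiv)).trans (Equiv.piComm _)
      refine (Equiv.subtypeEquiv e3 (q := fun w => ∀ l, GoodV (w l)) ?_).trans
        Equiv.subtypePiEquivPi
      intro r
      exact Iff.rfl
    rw [e1, Nat.card_congr e2, Nat.card_pi, ← Finset.prod_coe_sort (prs M)]
    rfl
  have h5 : (∏ l ∈ prs M, ((gc m n l : ℝ) / (l : ℝ) ^ (m + n + 2))) =
      (((Finset.univ.filter G).card : ℝ) / (Q : ℝ) ^ (m + n + 2)) := by
    rw [h4, Finset.prod_div_distrib]
    push_cast
    congr 1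
    rw [Finset.prod_pow, hQ, Finset.prod_coe_sort (prs M) (fun l => l)]
    push_cast
    rfl
  rw [h5]
  convert h2

end Pool.Agent.H77RES
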