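import Mathlib

set_option autoImplicit false
set_option linter.unusedSectionVars false

open Polynomial

namespace Pool.Agent.H77RES

/-! Coefficient vectors -/

/-- The polynomial with coefficient vector `v`. -/
noncomputable def pv {R : Type*} [Semiring R] {k : ℕ} (v : Fin (k + 1) → R) : R[X] :=
  ∑ i : Fin (k + 1), monomial (i : ℕ) (v i)

section pvsec

variable {R : Type*} [CommRing R] {k : ℕ}

lemma pv_coeff (v : Fin (k + 1) → R) (j : ℕ) :
    (pv v).coeff j = if h : j < k + 1 then v ⟨j, h⟩ else 0 := by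
  unfold pv
  rw [finsetSum_coeff]
  simp only [coeff_monomial]
  split_ifs with h
  · rw [Finset.sum_eq_single (⟨j, h⟩ : Fin (k + 1))]
    · simp
    · intro i _ hi
      rw [if_neg]
      intro h'
      exact hi (Fin.ext h')
    · intro h'
      exact absurd (Finset.mem_univ _) h'
  · refine Finset.sum_eq_zero fun i _ => ?_
    rw [if_neg]
    intro h'
    exact h (h' ▸ i.2)

lemma pv_coeff_fin (v : Fin (k + 1) → R) (j : Fin (k + 1)) : (pv v).coeff j = v j := by
  rw [pv_coeff, dif_pos j.2]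

lemma pv_coeff_last (v : Fin (k + 1) → R) : (pv v).coeff k = v (Fin.last k) :=
  pv_coeff_fin v (Fin.last k)

lemma pv_natDegree_le (v : Fin (k + 1) → R) : (pv v).natDegree ≤ k := by
  rw [natDegree_le_iff_coeff_eq_zero]
  intro j hj
  rw [pv_coeff, dif_neg (by omega)]

lemma pv_inj {v w : Fin (k + 1) → R} (h : pv v = pv w) : v = w := by
  funext i
  rw [← pv_coeff_fin v, ← pv_coeff_fin w, h]

lemma pv_of (f : R[X]) (hf : f.natDegree ≤ k) : pv (fun i : Fin (k + 1) => f.coeff i) = f := by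
  ext j
  rw [pv_coeff]
  split_ifs with h
  · rfl
  · rw [coeff_eq_zero_of_natDegree_lt (by omega)]

lemma pv_map {S : Type*} [CommRing S] (φ : R →+* S) (v : Fin (k + 1) → R) :
    (pv v).map φ = pv (fun i => φ (v i)) := by
  ext j
  rw [coeff_map, pv_coeff, pv_coeff]
  split_ifs
  · rfl
  · exact map_zero φ

end pvsec

/-- a common divisor of degree at least two -/
def HasDiv {R : Type*} [CommRing R] (f g : R[X]) : Prop :=
  ∃ h : R[X], 2 ≤ h.natDegree ∧ h ∣ f ∧ h ∣ g

/-! The bijections -/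

section Bij

variable {F : Type} [Field F]

/-- pairs with not both leading coefficients zero -/
def PP (F : Type) [Field F] (m n : ℕ) : Set (F[X] × F[X]) :=
  {x | x.1.natDegree ≤ m ∧ x.2.natDegree ≤ n ∧ (x.1.coeff m ≠ 0 ∨ x.2.coeff n ≠ 0)}

/-- triples (monic, coprime pair) -/
def TT (F : Type) [Field F] (m n : ℕ) : Set (F[X] × F[X] × F[X]) :=
  {x | x.1.Monic ∧ IsCoprime x.2.1 x.2.2 ∧
    (x.2.1 ≠ 0 → x.1.natDegree + x.2.1.natDegree ≤ m) ∧
    (x.2.2 ≠ 0 → x.1.natDegree + x.2.2.natDegree ≤ n) ∧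
    ((x.2.1 ≠ 0 ∧ x.1.natDegree + x.2.1.natDegree = m) ∨
      (x.2.2 ≠ 0 ∧ x.1.natDegree + x.2.2.natDegree = n))}

/-- multiplication -/
noncomputable def mu (x : F[X] × F[X] × F[X]) : F[X] × F[X] := (x.1 * x.2.1, x.1 * x.2.2)

lemma dvd_of_mul {h k f0 g0 : F[X]} (hc : IsCoprime f0 g0) (h1 : k ∣ h * f0) (h2 : k ∣ h * g0) :
    k ∣ h := by
  obtain ⟨a, b, hab⟩ := hc
  have : h = a * (h * f0) + b * (h * g0) := by
    calc h = h * 1 := (mul_one h).symm
      _ = h * (a * f0 + b * g0) := by rw [hab]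
      _ = _ := by ring
  rw [this]
  exact dvd_add (Dvd.dvd.mul_left h1 _) (Dvd.dvd.mul_left h2 _)

lemma mu_bij (m n : ℕ) : Set.BijOn mu (TT F m n) (PP F m n) := by
  refine ⟨?_, ?_, ?_⟩
  · rintro ⟨h, f0, g0⟩ ⟨hm, hc, h1, h2, h3⟩
    dsimp only at hm hc h1 h2 h3
    have e1 : f0 ≠ 0 → (h * f0).natDegree = h.natDegree + f0.natDegree := fun h0 =>
      natDegree_mul hm.ne_zero h0
    have e2 : g0 ≠ 0 → (h * g0).natDegree = h.natDegree + g0.natDegree := fun h0 =>
      natDegree_mul hm.ne_zero h0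
    refine ⟨?_, ?_, ?_⟩
    · show (h * f0).natDegree ≤ m
      rcases eq_or_ne f0 0 with h0 | h0
      · simp [h0]
      · rw [e1 h0]; exact h1 h0
    · show (h * g0).natDegree ≤ n
      rcases eq_or_ne g0 0 with h0 | h0
      · simp [h0]
      · rw [e2 h0]; exact h2 h0
    · show (h * f0).coeff m ≠ 0 ∨ (h * g0).coeff n ≠ 0
      rcases h3 with ⟨h0, h4⟩ | ⟨h0, h4⟩
      · left
        rw [← h4, ← e1 h0, coeff_natDegree, leadingCoeff_ne_zero]
        exact mul_ne_zero hm.ne_zero h0
      · right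
        rw [← h4, ← e2 h0, coeff_natDegree, leadingCoeff_ne_zero]
        exact mul_ne_zero hm.ne_zero h0
  · rintro ⟨h, f0, g0⟩ ⟨hm, hc, -, -, -⟩ ⟨k, f1, g1⟩ ⟨km, kc, -, -, -⟩ heq
    dsimp only at hm hc km kc
    have h1 : h * f0 = k * f1 := congrArg Prod.fst heq
    have h2 : h * g0 = k * g1 := congrArg Prod.snd heq
    have d1 : h ∣ k := dvd_of_mul kc (h1 ▸ dvd_mul_right h f0) (h2 ▸ dvd_mul_right h g0)
    have d2 : k ∣ h := dvd_of_mul hc (h1 ▸ dvd_mul_right k f1) (h2 ▸ dvd_mul_right k g1)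
    have e : h = k := eq_of_monic_of_associated hm km (associated_of_dvd_dvd d1 d2)
    subst e
    have e1 := mul_left_cancel₀ hm.ne_zero h1
    have e2 := mul_left_cancel₀ hm.ne_zero h2
    rw [e1, e2]
  · rintro ⟨f, g⟩ ⟨hf, hg, hl⟩
    dsimp only at hf hg hl
    classical
    have hne : ¬ (f = 0 ∧ g = 0) := by
      rintro ⟨rfl, rfl⟩
      simp at hl
    set k := EuclideanDomain.gcd f g with hk
    have hk0 : k ≠ 0 := fun h0 => hne (EuclideanDomain.gcd_eq_zero_iff.1 h0)
    have hlc : k.leadingCoeff ≠ 0 := leadingCoeff_ne_zero.2 hk0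
    set h := C k.leadingCoeff⁻¹ * k with hh
    have hmon : h.Monic := by
      rw [hh, mul_comm]
      exact monic_mul_leadingCoeff_inv hk0
    have hu : IsUnit (C k.leadingCoeff⁻¹) := isUnit_C.2 (isUnit_iff_ne_zero.2 (inv_ne_zero hlc))
    have hdf : h ∣ f := (hu.mul_left_dvd).2 (EuclideanDomain.gcd_dvd_left f g)
    have hdg : h ∣ g := (hu.mul_left_dvd).2 (EuclideanDomain.gcd_dvd_right f g)
    obtain ⟨f0, hf0⟩ := hdf
    obtain ⟨g0, hg0⟩ := hdg
    have hco : IsCoprime f0 g0 := by
      have h1 : k = f * EuclideanDomain.gcdA f g + g * EuclideanDomain.gcdB f g :=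
        EuclideanDomain.gcd_eq_gcd_ab f g
      refine ⟨C k.leadingCoeff⁻¹ * EuclideanDomain.gcdA f g,
        C k.leadingCoeff⁻¹ * EuclideanDomain.gcdB f g, ?_⟩
      apply mul_left_cancel₀ hmon.ne_zero
      rw [mul_one]
      calc h * (C k.leadingCoeff⁻¹ * EuclideanDomain.gcdA f g * f0 +
            C k.leadingCoeff⁻¹ * EuclideanDomain.gcdB f g * g0)
          = C k.leadingCoeff⁻¹ * ((h * f0) * EuclideanDomain.gcdA f g +
            (h * g0) * EuclideanDomain.gcdB f g) := by ring
        _ = C k.leadingCoeff⁻¹ * k := by rw [← hf0, ← hg0, ← h1]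
        _ = h := rfl
    refine ⟨(h, f0, g0), ⟨hmon, hco, ?_, ?_, ?_⟩, ?_⟩
    · intro h0
      dsimp only at h0 ⊢
      rw [← natDegree_mul hmon.ne_zero h0, ← hf0]
      exact hf
    · intro h0
      dsimp only at h0 ⊢
      rw [← natDegree_mul hmon.ne_zero h0, ← hg0]
      exact hg
    · dsimp only
      rcases hl with hl | hl
      · left
        have h0 : f0 ≠ 0 := by
          rintro rfl
          rw [mul_zero] at hf0
          rw [hf0] at hl
          simp at hl
        refine ⟨h0, ?_⟩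
        rw [← natDegree_mul hmon.ne_zero h0, ← hf0]
        exact le_antisymm hf (le_natDegree_of_ne_zero hl)
      · right
        have h0 : g0 ≠ 0 := by
          rintro rfl
          rw [mul_zero] at hg0
          rw [hg0] at hl
          simp at hl
        refine ⟨h0, ?_⟩
        rw [← natDegree_mul hmon.ne_zero h0, ← hg0]
        exact le_antisymm hg (le_natDegree_of_ne_zero hl)
    · show (h * f0, h * g0) = (f, g)
      rw [← hf0, ← hg0]

lemma mu_bij2 (m n : ℕ) : Set.BijOn mu {x | x ∈ TT F m n ∧ 2 ≤ x.1.natDegree}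
    {x | x ∈ PP F m n ∧ HasDiv x.1 x.2} := by
  have hb := mu_bij (F := F) m n
  refine ⟨?_, ?_, ?_⟩
  · rintro x ⟨hx, h2⟩
    exact ⟨hb.mapsTo hx, x.1, h2, dvd_mul_right _ _, dvd_mul_right _ _⟩
  · exact hb.injOn.mono fun x hx => hx.1
  · rintro y ⟨hy, k, hk, hk1, hk2⟩
    obtain ⟨x, hx, rfl⟩ := hb.surjOn hy
    refine ⟨x, ⟨hx, ?_⟩, rfl⟩
    have h1 : k ∣ x.1 := dvd_of_mul hx.2.1 hk1 hk2
    exact le_trans hk (natDegree_le_of_dvd h1 hx.1.ne_zero)

/-- adding two degrees -/
noncomputable def nu (x : (F × F) × (F[X] × F[X] × F[X])) : F[X] × F[X] × F[X] :=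
  (X ^ 2 * x.2.1 + (C x.1.2 * X + C x.1.1), x.2.2.1, x.2.2.2)

lemma nu_monic {h : F[X]} (hm : h.Monic) (s t : F) :
    (X ^ 2 * h + (C t * X + C s)).Monic ∧
      (X ^ 2 * h + (C t * X + C s)).natDegree = h.natDegree + 2 := by
  have h1 : (X ^ 2 * h).Monic := (monic_X_pow 2).mul hm
  have h2 : (X ^ 2 * h).natDegree = h.natDegree + 2 := by
    rw [natDegree_mul (monic_X_pow 2).ne_zero hm.ne_zero, natDegree_X_pow, add_comm]
  have h3 : (C t * X + C s).degree < (X ^ 2 * h).degree := by
    rw [degree_eq_natDegree h1.ne_zero, h2]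
    refine lt_of_le_of_lt degree_linear_le ?_
    exact_mod_cast (by omega : 1 < h.natDegree + 2)
  refine ⟨h1.add_of_left h3, ?_⟩
  rw [natDegree_add_eq_left_of_degree_lt h3, h2]

lemma nu_bij (m n : ℕ) : Set.BijOn nu (Set.univ ×ˢ TT F m n)
    {x | x ∈ TT F (m + 2) (n + 2) ∧ 2 ≤ x.1.natDegree} := by
  refine ⟨?_, ?_, ?_⟩
  · rintro ⟨⟨s, t⟩, h, f0, g0⟩ ⟨-, hm, hc, h1, h2, h3⟩
    dsimp only at hm hc h1 h2 h3
    obtain ⟨e1, e2⟩ := nu_monic hm s t
    refine ⟨⟨e1, hc, ?_, ?_, ?_⟩, ?_⟩
    · intro h0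
      have := h1 h0
      show (X ^ 2 * h + (C t * X + C s)).natDegree + f0.natDegree ≤ m + 2
      omega
    · intro h0
      have := h2 h0
      show (X ^ 2 * h + (C t * X + C s)).natDegree + g0.natDegree ≤ n + 2
      omega
    · show (f0 ≠ 0 ∧ (X ^ 2 * h + (C t * X + C s)).natDegree + f0.natDegree = m + 2) ∨
        (g0 ≠ 0 ∧ (X ^ 2 * h + (C t * X + C s)).natDegree + g0.natDegree = n + 2)
      rcases h3 with ⟨h0, h4⟩ | ⟨h0, h4⟩
      · exact Or.inl ⟨h0, by omega⟩
      · exact Or.inr ⟨h0, by omega⟩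
    · show 2 ≤ (X ^ 2 * h + (C t * X + C s)).natDegree
      omega
  · rintro ⟨⟨s, t⟩, h, f0, g0⟩ - ⟨⟨s', t'⟩, h', f0', g0'⟩ - heq
    have h1 : X ^ 2 * h + (C t * X + C s) = X ^ 2 * h' + (C t' * X + C s') :=
      congrArg (fun x => x.1) heq
    have h2 : f0 = f0' := congrArg (fun x => x.2.1) heq
    have h3 : g0 = g0' := congrArg (fun x => x.2.2) heq
    have hs : s = s' := by
      have := congrArg (fun w => w.coeff 0) h1
      simpa [coeff_X_pow_mul'] using this
    have ht : t = t' := by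
      have := congrArg (fun w => w.coeff 1) h1
      simpa [coeff_X_pow_mul', coeff_C] using this
    subst hs ht h2 h3
    have h4 : X ^ 2 * h = X ^ 2 * h' := add_right_cancel h1
    have h5 : h = h' := mul_left_cancel₀ (pow_ne_zero 2 X_ne_zero) h4
    rw [h5]
  · rintro ⟨k, f0, g0⟩ ⟨⟨hm, hc, h1, h2, h3⟩, h4⟩
    dsimp only at hm hc h1 h2 h3 h4
    have e1 : k.divX * X + C (k.coeff 0) = k := divX_mul_X_add k
    have e2 : k.divX.divX * X + C (k.divX.coeff 0) = k.divX := divX_mul_X_add k.divX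
    have e3 : k.divX.coeff 0 = k.coeff 1 := by rw [coeff_divX]
    have e4 : X ^ 2 * k.divX.divX + (C (k.coeff 1) * X + C (k.coeff 0)) = k := by
      conv_rhs => rw [← e1, ← e2, e3]
      ring
    have e5 : k.divX.divX.natDegree = k.natDegree - 2 := by
      rw [natDegree_divX_eq_natDegree_tsub_one, natDegree_divX_eq_natDegree_tsub_one]
      omega
    have e6 : k.divX.divX.Monic := by
      unfold Monic leadingCoeff
      rw [e5, coeff_divX, coeff_divX]
      have : k.natDegree - 2 + 1 + 1 = k.natDegree := by omega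
      rw [this]
      exact hm
    refine ⟨((k.coeff 0, k.coeff 1), k.divX.divX, f0, g0), ⟨trivial, e6, hc, ?_, ?_, ?_⟩, ?_⟩
    · intro h0
      have := h1 h0
      show k.divX.divX.natDegree + f0.natDegree ≤ m
      omega
    · intro h0
      have := h2 h0
      show k.divX.divX.natDegree + g0.natDegree ≤ n
      omega
    · show (f0 ≠ 0 ∧ k.divX.divX.natDegree + f0.natDegree = m) ∨
        (g0 ≠ 0 ∧ k.divX.divX.natDegree + g0.natDegree = n)
      rcases h3 with ⟨h0, h5⟩ | ⟨h0, h5⟩
      · exact Or.inl ⟨h0, by omega⟩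
      · exact Or.inr ⟨h0, by omega⟩
    · show (X ^ 2 * k.divX.divX + (C (k.coeff 1) * X + C (k.coeff 0)), f0, g0) = (k, f0, g0)
      rw [e4]

/-! Vectors -/

/-- index set of the coefficients of `f` and `g` -/
abbrev II (m n : ℕ) : Type := Fin (m + 1) ⊕ Fin (n + 1)

/-- the polynomial `f` of a vector -/
noncomputable def fv {R : Type*} [CommRing R] {m n : ℕ} (v : II m n → R) : R[X] :=
  pv (fun i => v (Sum.inl i))

/-- the polynomial `g` of a vector -/
noncomputable def gv {R : Type*} [CommRing R] {m n : ℕ} (v : II m n → R) : R[X] :=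
  pv (fun i => v (Sum.inr i))

/-- one of the leading coefficients is not zero -/
def Lead {R : Type*} [CommRing R] {m n : ℕ} (v : II m n → R) : Prop :=
  v (Sum.inl (Fin.last m)) ≠ 0 ∨ v (Sum.inr (Fin.last n)) ≠ 0

lemma vec_bij (m n : ℕ) : Set.BijOn (fun v : II m n → F => (fv v, gv v)) {v | Lead v}
    (PP F m n) := by
  refine ⟨?_, ?_, ?_⟩
  · intro v hv
    refine ⟨pv_natDegree_le _, pv_natDegree_le _, ?_⟩
    show (fv v).coeff m ≠ 0 ∨ (gv v).coeff n ≠ 0
    unfold fv gv
    rw [pv_coeff_last, pv_coeff_last]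
    exact hv
  · intro v _ w _ h
    have h1 : (fun i => v (Sum.inl i)) = fun i => w (Sum.inl i) := pv_inj (congrArg Prod.fst h)
    have h2 : (fun i => v (Sum.inr i)) = fun i => w (Sum.inr i) := pv_inj (congrArg Prod.snd h)
    funext i
    rcases i with i | i
    · exact congrFun h1 i
    · exact congrFun h2 i
  · rintro ⟨f, g⟩ ⟨hf, hg, hl⟩
    dsimp only at hf hg hl
    refine ⟨Sum.elim (fun i : Fin (m + 1) => f.coeff i) (fun i : Fin (n + 1) => g.coeff i), ?_, ?_⟩
    · exact hl
    · show (pv (fun i : Fin (m + 1) => f.coeff i), pv (fun i : Fin (n + 1) => g.coeff i)) = (f, g)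
      rw [pv_of f hf, pv_of g hg]

lemma vec_bij2 (m n : ℕ) : Set.BijOn (fun v : II m n → F => (fv v, gv v))
    {v | Lead v ∧ HasDiv (fv v) (gv v)} {x | x ∈ PP F m n ∧ HasDiv x.1 x.2} := by
  have hb := vec_bij (F := F) m n
  refine ⟨?_, ?_, ?_⟩
  · rintro v ⟨hv, h⟩
    exact ⟨hb.mapsTo hv, h⟩
  · exact hb.injOn.mono fun x hx => hx.1
  · rintro y ⟨hy, h⟩
    obtain ⟨x, hx, rfl⟩ := hb.surjOn hy
    exact ⟨x, ⟨hx, h⟩, rfl⟩

open Classical in
lemma card_lead [Fintype F] (m n : ℕ) :
    (Finset.univ.filter (fun v : II m n → F => Lead v)).card + Fintype.card F ^ (m + n) =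
      Fintype.card F ^ (m + n + 2) := by
  have h1 : (Finset.univ.filter (fun v : II m n → F => ¬ Lead v)) =
      Fintype.piFinset (fun i : II m n =>
        if i = Sum.inl (Fin.last m) ∨ i = Sum.inr (Fin.last n) then ({0} : Finset F)
          else Finset.univ) := by
    ext v
    rw [Finset.mem_filter, Fintype.mem_piFinset]
    unfold Lead
    push Not
    constructor
    · rintro ⟨-, h2, h3⟩ i
      split_ifs with hi
      · rcases hi with rfl | rfl
        · rw [Finset.mem_singleton]; exact h2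
        · rw [Finset.mem_singleton]; exact h3
      · exact Finset.mem_univ _
    · intro h
      refine ⟨Finset.mem_univ _, ?_, ?_⟩
      · have := h (Sum.inl (Fin.last m))
        rw [if_pos (Or.inl rfl), Finset.mem_singleton] at this
        exact this
      · have := h (Sum.inr (Fin.last n))
        rw [if_pos (Or.inr rfl), Finset.mem_singleton] at this
        exact this
  have h2 : (Finset.univ.filter (fun v : II m n → F => ¬ Lead v)).card =
      Fintype.card F ^ (m + n) := by
    rw [h1, Fintype.card_piFinset, Fintype.prod_sum_type, Fin.prod_univ_castSucc,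
      Fin.prod_univ_castSucc]
    have e1 : ∀ i : Fin m, (if (Sum.inl i.castSucc : II m n) = Sum.inl (Fin.last m) ∨
        (Sum.inl i.castSucc : II m n) = Sum.inr (Fin.last n) then ({0} : Finset F)
          else Finset.univ).card = Fintype.card F := by
      intro i
      rw [if_neg, Finset.card_univ]
      rintro (h | h)
      · exact (Fin.castSucc_lt_last i).ne (Sum.inl.inj h)
      · exact Sum.inl_ne_inr h
    have e2 : ∀ i : Fin n, (if (Sum.inr i.castSucc : II m n) = Sum.inl (Fin.last m) ∨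
        (Sum.inr i.castSucc : II m n) = Sum.inr (Fin.last n) then ({0} : Finset F)
          else Finset.univ).card = Fintype.card F := by
      intro i
      rw [if_neg, Finset.card_univ]
      rintro (h | h)
      · exact Sum.inr_ne_inl h
      · exact (Fin.castSucc_lt_last i).ne (Sum.inr.inj h)
    rw [Finset.prod_congr rfl (fun i _ => e1 i), Finset.prod_congr rfl (fun i _ => e2 i),
      if_pos (Or.inl rfl), if_pos (Or.inr rfl)]
    simp [pow_add]
  have h3 := Finset.card_filter_add_card_filter_not (s := (Finset.univ : Finset (II m n → F)))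
    (fun v => Lead v)
  rw [h2, Finset.card_univ, Fintype.card_fun] at h3
  rw [h3]
  congr 1
  simp
  ring

/-- the good vectors -/
def GoodV {R : Type*} [CommRing R] {m n : ℕ} (v : II m n → R) : Prop :=
  Lead v ∧ ¬ HasDiv (fv v) (gv v)

open Classical in
lemma card_good [Fintype F] (m n : ℕ) :
    (Finset.univ.filter (fun v : II (m + 2) (n + 2) → F => GoodV v)).card +
      2 * Fintype.card F ^ (m + n + 4) =
      Fintype.card F ^ (m + n + 6) + Fintype.card F ^ (m + n + 2) := by
  have h1 : (Finset.univ.filter (fun v : II (m + 2) (n + 2) → F =>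
      Lead v ∧ HasDiv (fv v) (gv v))).card = Fintype.card F ^ 2 *
        (Finset.univ.filter (fun v : II m n → F => Lead v)).card := by
    have e1 : Nat.card {v : II (m + 2) (n + 2) → F | Lead v ∧ HasDiv (fv v) (gv v)} =
        Nat.card {x | x ∈ TT F (m + 2) (n + 2) ∧ 2 ≤ x.1.natDegree} :=
      (Nat.card_congr (vec_bij2 (F := F) (m + 2) (n + 2)).equiv).trans
        (Nat.card_congr (mu_bij2 (F := F) (m + 2) (n + 2)).equiv).symm
    have e2 : Nat.card ((Set.univ : Set (F × F)) ×ˢ TT F m n : Set _) =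
        Nat.card {x | x ∈ TT F (m + 2) (n + 2) ∧ 2 ≤ x.1.natDegree} :=
      Nat.card_congr (nu_bij (F := F) m n).equiv
    have e3 : Nat.card {v : II m n → F | Lead v} = Nat.card (TT F m n) :=
      (Nat.card_congr (vec_bij (F := F) m n).equiv).trans
        (Nat.card_congr (mu_bij (F := F) m n).equiv).symm
    have e4 : Nat.card ((Set.univ : Set (F × F)) ×ˢ TT F m n : Set _) =
        Fintype.card F ^ 2 * Nat.card (TT F m n) := by
      rw [Nat.card_congr (Equiv.Set.prod (Set.univ : Set (F × F)) (TT F m n)), Nat.card_prod,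
        Nat.card_congr (Equiv.Set.univ (F × F)), Nat.card_prod, Nat.card_eq_fintype_card, sq]
    have e5 : ∀ {α : Type} [Fintype α] (P : α → Prop) [DecidablePred P],
        Nat.card {v : α | P v} = (Finset.univ.filter P).card := by
      intro α _ P _
      rw [Nat.card_eq_fintype_card]
      exact Fintype.card_subtype P
    rw [← e5, ← e5, e1, ← e2, e4, e3]
  have h2 := Finset.card_filter_add_card_filter_not
    (s := (Finset.univ.filter (fun v : II (m + 2) (n + 2) → F => Lead v)))
    (fun v => HasDiv (fv v) (gv v))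
  rw [Finset.filter_filter, Finset.filter_filter, h1] at h2
  have h3 := card_lead (F := F) m n
  have h4 := card_lead (F := F) (m + 2) (n + 2)
  have h5 : (Finset.univ.filter (fun v : II (m + 2) (n + 2) → F => GoodV v)) =
      (Finset.univ.filter (fun v : II (m + 2) (n + 2) → F =>
        Lead v ∧ ¬ HasDiv (fv v) (gv v))) := Finset.filter_congr fun v _ => Iff.rfl
  rw [h5]
  set q := Fintype.card F
  set a := (Finset.univ.filter (fun v : II m n → F => Lead v)).card
  have e1 : q ^ (m + 2 + (n + 2)) = q ^ (m + n + 4) := by congr 1; ring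
  have e2 : q ^ (m + 2 + (n + 2) + 2) = q ^ (m + n + 6) := by congr 1; ring
  have e3 : q ^ (m + n + 4) = q ^ 2 * q ^ (m + n + 2) := by rw [← pow_add]; congr 1; ring
  have e4 : q ^ (m + n + 2) = q ^ 2 * q ^ (m + n) := by rw [← pow_add]; congr 1; ring
  rw [e1, e2] at h4
  have e5 : q ^ 2 * a + q ^ 2 * q ^ (m + n) = q ^ 2 * q ^ (m + n + 2) := by
    rw [← mul_add, h3]
  rw [← e4, ← e3] at e5
  omega

end Bij

end Pool.Agent.H77RES
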