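import Pool.Agent.H77RES.Disc

set_option autoImplicit false
set_option linter.unusedSectionVars false

open Polynomial Filter Topology

namespace Pool.Agent.H77RES

variable {m n : ℕ}

/-! ### The universal polynomials are not zero -/

section universal

/-- the set of roots of the sample polynomial -/
noncomputable def sset (m : ℕ) : Finset ℂ := (Finset.range m).image (fun i : ℕ => ((i : ℂ) + 1))

lemma sset_card (m : ℕ) : (sset m).card = m := by
  unfold sset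
  rw [Finset.card_image_of_injective, Finset.card_range]
  intro a b h
  have : (a : ℂ) = b := add_right_cancel h
  exact_mod_cast this

/-- the sample polynomial -/
noncomputable def fs (m : ℕ) : ℂ[X] := ∏ a ∈ sset m, (X - C a)

lemma fs_monic (m : ℕ) : (fs m).Monic := monic_prod_of_monic _ _ fun a _ => monic_X_sub_C a

lemma fs_natDegree (m : ℕ) : (fs m).natDegree = m := by
  unfold fs
  rw [natDegree_prod_of_monic _ _ fun a _ => monic_X_sub_C a]
  simp [sset_card]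

lemma fs_roots (m : ℕ) : (fs m).roots = (sset m).val := roots_prod_X_sub_C _

/-- the sample vector -/
noncomputable def v0 (m n : ℕ) : II m n → ℂ :=
  Sum.elim (fun i : Fin (m + 1) => (fs m).coeff i) (fun j : Fin (n + 1) => (X ^ n : ℂ[X]).coeff j)

lemma fv_v0 (m n : ℕ) : fv (v0 m n) = fs m := by
  unfold fv v0
  exact pv_of (fs m) (fs_natDegree m).le

lemma gv_v0 (m n : ℕ) : gv (v0 m n) = X ^ n := by
  unfold gv v0
  exact pv_of (X ^ n : ℂ[X]) (natDegree_X_pow n).le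

lemma v0_last (m n : ℕ) : v0 m n (Sum.inl (Fin.last m)) = 1 := by
  have h := fs_monic m
  rw [Monic, leadingCoeff, fs_natDegree] at h
  exact h

lemma v0_update {n : ℕ} (hn : 0 < n) (m : ℕ) : Function.update (v0 m n) (i0 m n) 0 = v0 m n := by
  have h : v0 m n (i0 m n) = 0 := by
    show (X ^ n : ℂ[X]).coeff ((0 : Fin (n + 1)) : ℕ) = 0
    rw [coeff_X_pow, Fin.val_zero, if_neg (by omega)]
  conv_lhs => rw [← h]
  exact Function.update_eq_self _ _

lemma PR_v0 {n : ℕ} (hn : 0 < n) (m : ℕ) : PR (v0 m n) = ∏ a ∈ sset m, (X - C (-(a ^ n))) := by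
  rw [PR_formula (by rw [v0_last]; exact one_ne_zero), v0_last, one_pow, C_1, one_mul, v0_update hn,
    fv_v0, gv_v0, fs_roots]
  show Multiset.prod _ = Multiset.prod _
  congr 1
  refine Multiset.map_congr rfl fun a _ => ?_
  simp

lemma PR_v0_sep {n : ℕ} (hn : 0 < n) (m : ℕ) : (PR (v0 m n)).Separable := by
  rw [PR_v0 hn, separable_prod_X_sub_C_iff']
  intro a ha b hb h
  unfold sset at ha hb
  obtain ⟨i, -, rfl⟩ := Finset.mem_image.1 ha
  obtain ⟨j, -, rfl⟩ := Finset.mem_image.1 hb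
  have h1 := neg_injective h
  have h2 : ((i + 1 : ℕ) : ℂ) ^ n = ((j + 1 : ℕ) : ℂ) ^ n := by
    push_cast
    exact h1
  have h3 : (i + 1) ^ n = (j + 1) ^ n := by exact_mod_cast h2
  have h4 := Nat.pow_left_injective hn.ne' h3
  have h5 : i = j := by
    have h6 : i + 1 = j + 1 := h4
    omega
  rw [h5]

lemma DR_v0 {n : ℕ} (hn : 0 < n) (m : ℕ) : DR (v0 m n) ≠ 0 := by
  have h := resultant_ne_zero _ _ (PR_v0_sep hn m)
  have h1 : (PR (v0 m n)).natDegree = m := PR_natDegree (by rw [v0_last]; exact one_ne_zero)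
  have h2 : (PR (v0 m n)).derivative.natDegree = m - 1 := by
    rw [natDegree_derivative, h1]
  rw [h1, h2] at h
  exact h

lemma RS_v0 {n : ℕ} (hn : 0 < n) (m : ℕ) : RS (v0 m n) ≠ 0 := by
  have h := PR_eval (v0 m n) 0
  rw [v0_update hn] at h
  rw [← h, PR_v0 hn, eval_prod]
  refine Finset.prod_ne_zero_iff.2 fun a ha => ?_
  unfold sset at ha
  obtain ⟨i, -, rfl⟩ := Finset.mem_image.1 ha
  simp only [eval_sub, eval_X, eval_C, sub_neg_eq_add, zero_add]
  apply pow_ne_zero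
  exact Nat.cast_add_one_ne_zero i

lemma DR_univ {n : ℕ} (hn : 0 < n) (m : ℕ) :
    DR (fun i => (MvPolynomial.X i : MvPolynomial (II m n) ℤ)) ≠ 0 := by
  intro h
  have h1 := DR_map (MvPolynomial.eval₂Hom (Int.castRingHom ℂ) (v0 m n))
    (fun i => (MvPolynomial.X i : MvPolynomial (II m n) ℤ))
  rw [h, map_zero] at h1
  simp only [MvPolynomial.coe_eval₂Hom, MvPolynomial.eval₂_X] at h1
  exact DR_v0 hn m h1.symm

lemma RS_univ {n : ℕ} (hn : 0 < n) (m : ℕ) :
    RS (fun i => (MvPolynomial.X i : MvPolynomial (II m n) ℤ)) ≠ 0 := by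
  intro h
  have h1 := RS_map (MvPolynomial.eval₂Hom (Int.castRingHom ℂ) (v0 m n))
    (fun i => (MvPolynomial.X i : MvPolynomial (II m n) ℤ))
  rw [h, map_zero] at h1
  simp only [MvPolynomial.coe_eval₂Hom, MvPolynomial.eval₂_X] at h1
  exact RS_v0 hn m h1.symm

lemma DR_eval (v : II m n → ℤ) :
    MvPolynomial.eval v (DR (fun i => (MvPolynomial.X i : MvPolynomial (II m n) ℤ))) = DR v := by
  rw [DR_map]
  simp only [MvPolynomial.eval_X]

lemma RS_eval (v : II m n → ℤ) :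
    MvPolynomial.eval v (RS (fun i => (MvPolynomial.X i : MvPolynomial (II m n) ℤ))) = RS v := by
  rw [RS_map]
  simp only [MvPolynomial.eval_X]

end universal

lemma dens_RS {n : ℕ} (hn : 0 < n) (m : ℕ) : ∃ C : ℝ, ∀ H : ℕ, 0 < H →
    dens m n H (fun v => RS v = 0) ≤ C / H := by
  obtain ⟨C, hC⟩ := sz_bound _ (RS_univ hn m)
  refine ⟨C, fun H hH => ?_⟩
  simpa only [RS_eval] using hC H hH

lemma dens_DR {n : ℕ} (hn : 0 < n) (m : ℕ) : ∃ C : ℝ, ∀ H : ℕ, 0 < H →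
    dens m n H (fun v => DR v = 0) ≤ C / H := by
  obtain ⟨C, hC⟩ := sz_bound _ (DR_univ hn m)
  refine ⟨C, fun H hH => ?_⟩
  simpa only [DR_eval] using hC H hH

/-! ### Big primes -/

open Classical in
lemma card_Fl {H l : ℕ} (hlH : H < l) (v : II m n → ℤ) :
    ((box m n H (i0 m n)).filter (fun x : ℤ => ∃ h : l.Prime,
      ((PR v).map (@phi l ⟨h⟩)).IsRoot (@phi l ⟨h⟩ x) ∧ (PR v).map (@phi l ⟨h⟩) ≠ 0 ∧
        ((PR v).map (@phi l ⟨h⟩)).natDegree = m)).card ≤ 3 * m := by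
  by_cases hne : ((box m n H (i0 m n)).filter (fun x : ℤ => ∃ h : l.Prime,
      ((PR v).map (@phi l ⟨h⟩)).IsRoot (@phi l ⟨h⟩ x) ∧ (PR v).map (@phi l ⟨h⟩) ≠ 0 ∧
        ((PR v).map (@phi l ⟨h⟩)).natDegree = m)).Nonempty
  · obtain ⟨y, hy⟩ := hne
    obtain ⟨-, hp, -, hP0, hPd⟩ := Finset.mem_filter.1 hy
    have : Fact l.Prime := ⟨hp⟩
    set P := (PR v).map (phi l) with hP
    refine le_trans (Finset.card_le_mul_card_image_of_maps_to
      (f := fun x : ℤ => phi l x) (t := P.roots.toFinset) ?_ 3 ?_) ?_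
    · intro x hx
      obtain ⟨-, _, h1, h2, -⟩ := Finset.mem_filter.1 hx
      exact Multiset.mem_toFinset.2 ((mem_roots h2).2 h1)
    · intro r _
      refine le_trans (Finset.card_le_card ?_) (card_class (m := m) (n := n) H hlH r)
      intro x hx
      obtain ⟨h1, h2⟩ := Finset.mem_filter.1 hx
      exact Finset.mem_filter.2 ⟨(Finset.mem_filter.1 h1).1, h2⟩
    · refine Nat.mul_le_mul_left 3 ?_
      refine le_trans (Multiset.toFinset_card_le _) ?_
      refine le_trans (card_roots' P) ?_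
      exact hPd.le
  · rw [Finset.not_nonempty_iff_eq_empty] at hne
    rw [hne]
    simp

open Classical in
lemma fiber_bound' {H : ℕ} (hH : 0 < H) (i0 : II m n) (P : (II m n → ℤ) → Prop) (K : ℕ)
    (hK : ∀ v : II m n → ℤ, ∃ t : Finset ℤ, t.card ≤ K ∧
      ∀ x ∈ box m n H i0, P (Function.update v i0 x) → x ∈ t) :
    dens m n H P ≤ (K : ℝ) / H := by
  refine fiber_bound hH i0 P K fun v => ?_
  obtain ⟨t, ht, h⟩ := hK v
  refine le_trans (Finset.card_le_card ?_) ht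
  intro x hx
  exact h x (Finset.mem_filter.1 hx).1 (Finset.mem_filter.1 hx).2

open Classical in
lemma dens_big {n : ℕ} (hn : 0 < n) {m : ℕ} (hm : 0 < m) : ∃ C : ℝ, ∃ H0 : ℕ, ∀ H : ℕ, H0 < H →
    dens m n H (fun v => ∃ l : ℕ, l.Prime ∧ H < l ∧ ¬ GoodV (cl l v)) ≤ C / H := by
  obtain ⟨C1, hC1⟩ := dens_DR hn m
  obtain ⟨C, κ, hg⟩ := growth (DR (fun i => (MvPolynomial.X i : MvPolynomial (II m n) ℤ)))
  refine ⟨C1 + (κ * (3 * m) : ℕ), C + 1, fun H hH => ?_⟩
  have hH0 : 0 < H := by omega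
  have h1 : dens m n H (fun v => ∃ l : ℕ, l.Prime ∧ H < l ∧ ¬ GoodV (cl l v)) ≤
      dens m n H (fun v => DR v = 0 ∨
        (v ∈ Box m n H ∧ DR v ≠ 0 ∧ ∃ l : ℕ, l.Prime ∧ H < l ∧ ¬ GoodV (cl l v))) := by
    refine dens_mono fun v hv h => ?_
    by_cases h0 : DR v = 0
    · exact Or.inl h0
    · exact Or.inr ⟨hv, h0, h⟩
  refine le_trans h1 (le_trans (dens_or_le H _ _) ?_)
  rw [add_div]
  refine add_le_add (hC1 H hH0) ?_
  refine fiber_bound' hH0 (i0 m n) _ _ fun v => ?_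
  by_cases hne : ∃ y ∈ box m n H (i0 m n),
      (Function.update v (i0 m n) y ∈ Box m n H ∧ DR (Function.update v (i0 m n) y) ≠ 0 ∧
        ∃ l : ℕ, l.Prime ∧ H < l ∧ ¬ GoodV (cl l (Function.update v (i0 m n) y)))
  · obtain ⟨y, -, hyB, hyD, -⟩ := hne
    rw [DR_update] at hyD
    have hDle : (DR v).natAbs ≤ C * H ^ κ := by
      have h2 := hg H hH0 _ (fun i => mem_Box_abs hyB i)
      rw [DR_eval, DR_update] at h2
      exact h2
    set T := ((DR v).natAbs.primeFactors).filter (fun l => H < l) with hT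
    have hTc : T.card ≤ κ := by
      refine card_big_primes (H := H) (by omega) (by omega) hyD hDle T ?_
      intro l hl
      obtain ⟨h2, h3⟩ := Finset.mem_filter.1 hl
      exact ⟨Nat.prime_of_mem_primeFactors h2, h3,
        Int.natCast_dvd.2 (Nat.dvd_of_mem_primeFactors h2)⟩
    refine ⟨T.biUnion (fun l => (box m n H (i0 m n)).filter (fun x : ℤ => ∃ h : l.Prime,
          ((PR v).map (@phi l ⟨h⟩)).IsRoot (@phi l ⟨h⟩ x) ∧ (PR v).map (@phi l ⟨h⟩) ≠ 0 ∧
          ((PR v).map (@phi l ⟨h⟩)).natDegree = m)), ?_, ?_⟩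
    · refine le_trans (Finset.card_biUnion_le_card_mul _ _ (3 * m) ?_) ?_
      · intro l hl
        exact card_Fl (Finset.mem_filter.1 hl).2 v
      · exact Nat.mul_le_mul_right _ hTc
    · rintro x hxb ⟨hxB, hxD, l, hl, hlH, hbad⟩
      have : Fact l.Prime := ⟨hl⟩
      obtain ⟨h2, h3, h4, h5⟩ := big_prime hm hlH hxB hbad
      rw [DR_update] at h2
      rw [PR_update] at h3 h4 h5
      rw [Function.update_self] at h3
      rw [Finset.mem_biUnion]
      refine ⟨l, ?_, ?_⟩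
      · rw [hT, Finset.mem_filter]
        refine ⟨?_, hlH⟩
        rw [Nat.mem_primeFactors]
        exact ⟨hl, Int.natCast_dvd.1 h2, by simpa using hyD⟩
      · exact Finset.mem_filter.2 ⟨hxb, hl, h3, h4, h5⟩
  · refine ⟨∅, by simp, fun x hx h => ?_⟩
    exact absurd ⟨x, hx, h⟩ hne

/-! ### Medium primes -/

open Classical in
lemma gc_eq (m n : ℕ) {l : ℕ} (hl : l.Prime) :
    ((gc (m + 2) (n + 2) l : ℕ) : ℝ) / (l : ℝ) ^ (m + 2 + (n + 2) + 2) =
      (1 - ((l : ℝ) ^ 2)⁻¹) ^ 2 := by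
  have : Fact l.Prime := ⟨hl⟩
  have h1 := card_good (F := ZMod l) m n
  have h2 : gc (m + 2) (n + 2) l =
      (Finset.univ.filter (fun v : II (m + 2) (n + 2) → ZMod l => GoodV v)).card := by
    unfold gc
    rw [Nat.card_eq_fintype_card]
    exact Fintype.card_subtype _
  rw [← h2, ZMod.card] at h1
  have h3 : ((gc (m + 2) (n + 2) l : ℕ) : ℝ) + 2 * (l : ℝ) ^ (m + n + 4) =
      (l : ℝ) ^ (m + n + 6) + (l : ℝ) ^ (m + n + 2) := by exact_mod_cast h1
  have hl0 : (l : ℝ) ≠ 0 := by exact_mod_cast hl.ne_zero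
  have h4 : ((gc (m + 2) (n + 2) l : ℕ) : ℝ) =
      (l : ℝ) ^ (m + n + 6) + (l : ℝ) ^ (m + n + 2) - 2 * (l : ℝ) ^ (m + n + 4) := by linarith
  rw [h4]
  have e1 : m + 2 + (n + 2) + 2 = m + n + 6 := by ring
  have e2 : (l : ℝ) ^ (m + n + 6) = (l : ℝ) ^ (m + n + 2) * l ^ 4 := by ring
  have e3 : (l : ℝ) ^ (m + n + 4) = (l : ℝ) ^ (m + n + 2) * l ^ 2 := by ring
  rw [e1, e2, e3]
  field_simp
  ring

open Classical in
lemma card_bad (m n : ℕ) {l : ℕ} (hl : l.Prime) :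
    ((Nat.card {r : II (m + 2) (n + 2) → ZMod l | ¬ GoodV r} : ℕ) : ℝ) ≤
      2 * (l : ℝ) ^ (m + n + 4) := by
  have : Fact l.Prime := ⟨hl⟩
  have h1 := card_good (F := ZMod l) m n
  have h2 : Nat.card {r : II (m + 2) (n + 2) → ZMod l | ¬ GoodV r} =
      (Finset.univ.filter (fun v : II (m + 2) (n + 2) → ZMod l => ¬ GoodV v)).card := by
    rw [Nat.card_eq_fintype_card]
    exact Fintype.card_subtype _
  have h3 := Finset.card_filter_add_card_filter_not (s := Finset.univ)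
    (fun v : II (m + 2) (n + 2) → ZMod l => GoodV v)
  rw [Finset.card_univ] at h3
  have h4 : Fintype.card (II (m + 2) (n + 2) → ZMod l) = l ^ (m + n + 6) := by
    rw [Fintype.card_fun, ZMod.card]
    congr 1
    simp
    ring
  rw [ZMod.card] at h1
  rw [h4] at h3
  have h5 : Nat.card {r : II (m + 2) (n + 2) → ZMod l | ¬ GoodV r} ≤ 2 * l ^ (m + n + 4) := by
    rw [h2]
    omega
  exact_mod_cast h5

open Classical in
lemma dens_mid (m n : ℕ) {M H : ℕ} (hM : 0 < M) (hMH : M ≤ H) :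
    dens (m + 2) (n + 2) H (fun v => ∃ l : ℕ, l.Prime ∧ M < l ∧ l ≤ H ∧ ¬ GoodV (cl l v)) ≤
      2 ^ (m + n + 7) / M := by
  have h1 : dens (m + 2) (n + 2) H
      (fun v => ∃ l : ℕ, l.Prime ∧ M < l ∧ l ≤ H ∧ ¬ GoodV (cl l v)) ≤
      dens (m + 2) (n + 2) H
      (fun v => ∃ l ∈ (Finset.Ioc M H).filter Nat.Prime, ¬ GoodV (cl l v)) := by
    refine dens_mono fun v _ => ?_
    rintro ⟨l, h2, h3, h4, h5⟩
    exact ⟨l, Finset.mem_filter.2 ⟨Finset.mem_Ioc.2 ⟨h3, h4⟩, h2⟩, h5⟩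
  refine le_trans h1 (le_trans (dens_exists_le H _ _) ?_)
  have h2 : ∀ l ∈ (Finset.Ioc M H).filter Nat.Prime,
      dens (m + 2) (n + 2) H (fun v => ¬ GoodV (cl l v)) ≤ 2 ^ (m + n + 7) * ((l : ℝ) ^ 2)⁻¹ := by
    intro l hl
    obtain ⟨h3, hlp⟩ := Finset.mem_filter.1 hl
    obtain ⟨-, h4⟩ := Finset.mem_Ioc.1 h3
    refine le_trans (dens_class_le hlp.pos h4 (fun r => ¬ GoodV r)) ?_
    refine le_trans (mul_le_mul_of_nonneg_right (card_bad m n hlp) (by positivity)) ?_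
    have hl0 : (l : ℝ) ≠ 0 := by exact_mod_cast hlp.ne_zero
    have e1 : m + 2 + (n + 2) + 2 = m + n + 6 := by ring
    rw [e1]
    have e2 : (2 / (l : ℝ)) ^ (m + n + 6) = 2 ^ (m + n + 6) / (l : ℝ) ^ (m + n + 4) / l ^ 2 := by
      rw [div_pow, div_div]
      congr 1
      ring
    rw [e2]
    apply le_of_eq
    field_simp
    ring
  refine le_trans (Finset.sum_le_sum h2) ?_
  rw [← Finset.mul_sum]
  have h3 : ∑ l ∈ (Finset.Ioc M H).filter Nat.Prime, ((l : ℝ) ^ 2)⁻¹ ≤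
      ∑ l ∈ Finset.Ioc M H, ((l : ℝ) ^ 2)⁻¹ :=
    Finset.sum_le_sum_of_subset_of_nonneg (Finset.filter_subset _ _) fun _ _ _ => by positivity
  have h4 := sum_Ioc_inv_sq_le_sub (α := ℝ) hM.ne' hMH
  have h5 : (0 : ℝ) ≤ (H : ℝ)⁻¹ := by positivity
  rw [div_eq_mul_inv]
  refine mul_le_mul_of_nonneg_left ?_ (by positivity)
  linarith

/-! ### The Euler product -/

lemma tendsto_euler : Tendsto (fun M : ℕ => ∏ l ∈ prs M, (1 - ((l : ℝ) ^ 2)⁻¹) ^ 2) atTop
    (𝓝 (36 / Real.pi ^ 4)) := by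
  have h1 := riemannZeta_eulerProduct (s := 2) (by norm_num)
  rw [riemannZeta_two] at h1
  have h2 : (fun n : ℕ => ∏ p ∈ Nat.primesBelow n, (1 - (p : ℂ) ^ (-2 : ℂ))⁻¹) =
      fun n : ℕ => ((∏ p ∈ Nat.primesBelow n, (1 - ((p : ℝ) ^ 2)⁻¹)⁻¹ : ℝ) : ℂ) := by
    funext n
    push_cast
    refine Finset.prod_congr rfl fun p _ => ?_
    congr 2
    rw [Complex.cpow_neg]
    norm_cast
  rw [h2] at h1
  have h3 : ((Real.pi : ℂ) ^ 2 / 6) = ((Real.pi ^ 2 / 6 : ℝ) : ℂ) := by push_cast; rfl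
  rw [h3] at h1
  have h4 := (Complex.continuous_re.tendsto _).comp h1
  simp only [Function.comp_def, Complex.ofReal_re] at h4
  have hpi : Real.pi ^ 2 / 6 ≠ 0 := by positivity
  have h5 := ((h4.inv₀ hpi).pow 2).comp (tendsto_add_atTop_nat 1)
  have h6 : (Real.pi ^ 2 / 6)⁻¹ ^ 2 = 36 / Real.pi ^ 4 := by
    field_simp
    ring
  rw [h6] at h5
  refine h5.congr fun M => ?_
  simp only [Function.comp_def]
  have h7 : Nat.primesBelow (M + 1) = prs M := by
    ext l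
    rw [Nat.mem_primesBelow, mem_prs]
    constructor
    · rintro ⟨a, b⟩; exact ⟨b, by omega⟩
    · rintro ⟨a, b⟩; exact ⟨by omega, a⟩
  rw [h7, Finset.prod_pow, Finset.prod_inv_distrib, inv_inv]

lemma lt_half : 36 / Real.pi ^ 4 < 1 / 2 := by
  have h := Real.pi_gt_three
  have h1 : (81 : ℝ) < Real.pi ^ 4 := by
    have h2 : (3 : ℝ) ^ 4 < Real.pi ^ 4 := pow_lt_pow_left₀ h (by norm_num) (by norm_num)
    norm_num at h2
    exact h2
  rw [div_lt_div_iff₀ (by positivity) (by norm_num)]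
  linarith

end Pool.Agent.H77RES
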