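import Pool.Agent.H77RES.Big

set_option autoImplicit false
set_option linter.unusedSectionVars false

open Polynomial Filter Topology

namespace Pool.Agent.H77RES

variable {m n : ℕ}

/-- the index of the constant coefficient of `g` -/
abbrev i0 (m n : ℕ) : II m n := Sum.inr 0

section Rs

variable {R S : Type*} [CommRing R] [CommRing S]

/-- the resultant of a vector -/
noncomputable def RS (v : II m n → R) : R := resultant (fv v) (gv v) m n

lemma fv_map (φ : R →+* S) (v : II m n → R) : (fv v).map φ = fv (fun i => φ (v i)) :=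
  pv_map φ _

lemma gv_map (φ : R →+* S) (v : II m n → R) : (gv v).map φ = gv (fun i => φ (v i)) :=
  pv_map φ _

lemma RS_map (φ : R →+* S) (v : II m n → R) : φ (RS v) = RS (fun i => φ (v i)) := by
  unfold RS
  rw [← resultant_map_map, fv_map, gv_map]

/-- the resultant as a polynomial of the constant coefficient of `g` -/
noncomputable def PR (v : II m n → R) : R[X] :=
  RS (Function.update (fun i => (C (v i) : R[X])) (i0 m n) X)

lemma PR_eval (v : II m n → R) (y : R) : (PR v).eval y = RS (Function.update v (i0 m n) y) := by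
  have h := RS_map (evalRingHom y) (Function.update (fun i => (C (v i) : R[X])) (i0 m n) X)
  have h2 : (fun i => (evalRingHom y) (Function.update (fun i => (C (v i) : R[X])) (i0 m n) X i)) =
      Function.update v (i0 m n) y := by
    funext i
    by_cases hi : i = i0 m n
    · subst hi
      rw [Function.update_self, Function.update_self]
      simp
    · rw [Function.update_of_ne hi, Function.update_of_ne hi]
      simp
  rw [h2] at h
  exact h

lemma PR_update (v : II m n → R) (x : R) : PR (Function.update v (i0 m n) x) = PR v := by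
  unfold PR
  congr 1
  funext i
  by_cases hi : i = i0 m n
  · subst hi
    rw [Function.update_self, Function.update_self]
  · rw [Function.update_of_ne hi, Function.update_of_ne hi, Function.update_of_ne hi]

lemma PR_map (φ : R →+* S) (v : II m n → R) : (PR v).map φ = PR (fun i => φ (v i)) := by
  have h := RS_map (mapRingHom φ) (Function.update (fun i => (C (v i) : R[X])) (i0 m n) X)
  have h2 : (fun i => (mapRingHom φ) (Function.update (fun i => (C (v i) : R[X])) (i0 m n) X i)) =
      Function.update (fun i => (C (φ (v i)) : S[X])) (i0 m n) X := by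
    funext i
    by_cases hi : i = i0 m n
    · subst hi
      rw [Function.update_self, Function.update_self]
      simp
    · rw [Function.update_of_ne hi, Function.update_of_ne hi]
      simp
  rw [h2] at h
  exact h

/-- the discriminant-like quantity -/
noncomputable def DR (v : II m n → R) : R := resultant (PR v) (PR v).derivative m (m - 1)

lemma DR_map (φ : R →+* S) (v : II m n → R) : φ (DR v) = DR (fun i => φ (v i)) := by
  unfold DR
  rw [← resultant_map_map, ← derivative_map, PR_map]

lemma DR_update (v : II m n → R) (x : R) : DR (Function.update v (i0 m n) x) = DR v := by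
  unfold DR
  rw [PR_update]

end Rs

section closed

variable {K : Type*} [Field K]

lemma fv_natDegree {v : II m n → K} (hv : v (Sum.inl (Fin.last m)) ≠ 0) :
    (fv v).natDegree = m := by
  refine le_antisymm (pv_natDegree_le _) (le_natDegree_of_ne_zero ?_)
  unfold fv
  rw [pv_coeff_last]
  exact hv

lemma fv_leadingCoeff {v : II m n → K} (hv : v (Sum.inl (Fin.last m)) ≠ 0) :
    (fv v).leadingCoeff = v (Sum.inl (Fin.last m)) := by
  rw [leadingCoeff, fv_natDegree hv]
  unfold fv
  rw [pv_coeff_last]

lemma gv_update (v : II m n → K) (y : K) :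
    gv (Function.update v (i0 m n) y) = gv (Function.update v (i0 m n) 0) + C y := by
  ext j
  rw [coeff_add]
  unfold gv
  rw [pv_coeff, pv_coeff]
  by_cases hj : j < n + 1
  · rw [dif_pos hj, dif_pos hj]
    by_cases h0 : j = 0
    · subst h0
      have : (⟨0, hj⟩ : Fin (n + 1)) = 0 := rfl
      rw [this, Function.update_self, Function.update_self, coeff_C_zero, zero_add]
    · have h1 : (Sum.inr (⟨j, hj⟩ : Fin (n + 1)) : II m n) ≠ i0 m n := by
        intro h
        have h2 := Sum.inr_injective h
        exact h0 (congrArg Fin.val h2)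
      rw [Function.update_of_ne h1, Function.update_of_ne h1, coeff_C_of_ne_zero h0, add_zero]
  · rw [dif_neg hj, dif_neg hj]
    have h0 : j ≠ 0 := by omega
    rw [coeff_C_of_ne_zero h0, add_zero]

lemma fv_update (v : II m n → K) (y : K) : fv (Function.update v (i0 m n) y) = fv v := by
  unfold fv
  congr 1

lemma PR_formula [IsAlgClosed K] {v : II m n → K} (hv : v (Sum.inl (Fin.last m)) ≠ 0) :
    PR v = C (v (Sum.inl (Fin.last m)) ^ n) *
      ((fv v).roots.map
        (fun α => X + C ((gv (Function.update v (i0 m n) 0)).eval α))).prod := by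
  apply Polynomial.funext
  intro y
  rw [PR_eval]
  unfold RS
  rw [fv_update]
  have h1 := resultant_eq_prod_eval (fv v) (gv (Function.update v (i0 m n) y)) n
    (pv_natDegree_le _) (IsAlgClosed.splits _)
  rw [fv_natDegree hv] at h1
  rw [h1, fv_leadingCoeff hv, eval_mul, eval_C, eval_multiset_prod, Multiset.map_map]
  congr 2
  refine Multiset.map_congr rfl fun α _ => ?_
  rw [gv_update]
  simp [add_comm]

lemma PR_natDegree [IsAlgClosed K] {v : II m n → K} (hv : v (Sum.inl (Fin.last m)) ≠ 0) :
    (PR v).natDegree = m := by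
  rw [PR_formula hv, natDegree_C_mul (pow_ne_zero _ hv)]
  rw [natDegree_multiset_prod_of_monic]
  · rw [Multiset.map_map]
    have h : (natDegree ∘ fun α => X + C (eval α (gv (Function.update v (i0 m n) 0)))) =
        fun _ : K => 1 := by
      funext α
      exact natDegree_X_add_C _
    rw [h, Multiset.map_const', Multiset.sum_replicate, smul_eq_mul, mul_one,
      ← (IsAlgClosed.splits (fv v)).natDegree_eq_card_roots, fv_natDegree hv]
  · intro f hf
    obtain ⟨α, -, rfl⟩ := Multiset.mem_map.1 hf
    exact monic_X_add_C _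

lemma PR_ne_zero [IsAlgClosed K] {v : II m n → K} (hv : v (Sum.inl (Fin.last m)) ≠ 0) :
    PR v ≠ 0 := by
  rw [PR_formula hv]
  refine mul_ne_zero (C_ne_zero.2 (pow_ne_zero _ hv)) ?_
  apply Multiset.prod_ne_zero
  intro h
  obtain ⟨α, -, h2⟩ := Multiset.mem_map.1 h
  exact (monic_X_add_C _).ne_zero h2

lemma two_dvd_PR [IsAlgClosed K] {v : II m n → K} (hv : v (Sum.inl (Fin.last m)) ≠ 0)
    (hd : HasDiv (fv v) (gv v)) : (X - C (v (i0 m n))) ^ 2 ∣ PR v := by
  obtain ⟨h, h2, hf, hg⟩ := hd
  have hf0 : fv v ≠ 0 := by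
    intro h0
    have := fv_leadingCoeff hv
    rw [h0, leadingCoeff_zero] at this
    exact hv this.symm
  have hle : h.roots ≤ (fv v).roots := roots.le_of_dvd hf0 hf
  have hcard : 2 ≤ Multiset.card h.roots := by
    rw [← (IsAlgClosed.splits h).natDegree_eq_card_roots]; exact h2
  obtain ⟨α, s1, hs1⟩ : ∃ α s1, h.roots = α ::ₘ s1 := by
    have : 0 < Multiset.card h.roots := by omega
    obtain ⟨α, hα⟩ := Multiset.card_pos_iff_exists_mem.1 this
    exact ⟨α, _, (Multiset.exists_cons_of_mem hα).choose_spec⟩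
  obtain ⟨β, s2, hs2⟩ : ∃ β s2, s1 = β ::ₘ s2 := by
    have : 0 < Multiset.card s1 := by
      rw [hs1, Multiset.card_cons] at hcard
      omega
    obtain ⟨β, hβ⟩ := Multiset.card_pos_iff_exists_mem.1 this
    exact ⟨β, _, (Multiset.exists_cons_of_mem hβ).choose_spec⟩
  obtain ⟨u, hu⟩ := Multiset.le_iff_exists_add.1 hle
  have hroot : ∀ γ ∈ h.roots, (gv (Function.update v (i0 m n) 0)).eval γ = - v (i0 m n) := by
    intro γ hγ
    have h1 : (gv v).eval γ = 0 := by
      obtain ⟨w, hw⟩ := hg
      rw [hw, eval_mul, (mem_roots'.1 hγ).2.eq_zero, zero_mul]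
    have h3 := gv_update v (v (i0 m n))
    rw [Function.update_eq_self] at h3
    rw [h3, eval_add, eval_C] at h1
    exact eq_neg_of_add_eq_zero_left h1
  have hα := hroot α (by rw [hs1]; exact Multiset.mem_cons_self _ _)
  have hβ := hroot β (by rw [hs1, hs2]; exact Multiset.mem_cons_of_mem (Multiset.mem_cons_self _ _))
  rw [PR_formula hv, hu, hs1, hs2]
  simp only [Multiset.cons_add, Multiset.map_cons, Multiset.prod_cons]
  rw [hα, hβ, map_neg, ← sub_eq_add_neg]
  refine Dvd.dvd.mul_left ?_ _
  rw [pow_two, ← mul_assoc]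
  exact dvd_mul_right _ _

lemma DR_eq_zero [IsAlgClosed K] (hm : 0 < m) {v : II m n → K}
    (hv : v (Sum.inl (Fin.last m)) ≠ 0) (hd : HasDiv (fv v) (gv v)) :
    DR v = 0 ∧ (PR v).IsRoot (v (i0 m n)) := by
  obtain ⟨Q, hQ⟩ := two_dvd_PR hv hd
  have h1 : (PR v).eval (v (i0 m n)) = 0 := by
    rw [hQ]; simp
  have h2 : (PR v).derivative.eval (v (i0 m n)) = 0 := by
    rw [hQ, derivative_mul, derivative_X_sub_C_sq]; simp
  refine ⟨?_, h1⟩
  obtain ⟨p, q, -, -, h⟩ := exists_mul_add_mul_eq_C_resultant (m := m) (n := m - 1)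
    (PR v) (PR v).derivative (PR_natDegree hv).le
    (le_trans (natDegree_derivative_le _) (by rw [PR_natDegree hv])) (Or.inl hm.ne')
  have h3 := congrArg (eval (v (i0 m n))) h
  rw [eval_add, eval_mul, eval_mul, h1, h2, zero_mul, zero_mul, add_zero, eval_C] at h3
  exact h3.symm

end closed

/-! ### Reduction modulo a prime -/

section red

variable {l : ℕ} [Fact l.Prime]

/-- the map `ℤ → closure of 𝔽_l` -/
noncomputable def phi (l : ℕ) [Fact l.Prime] : ℤ →+* AlgebraicClosure (ZMod l) :=
  (algebraMap (ZMod l) (AlgebraicClosure (ZMod l))).comp (Int.castRingHom (ZMod l))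

lemma phi_eq_zero_iff (x : ℤ) : phi l x = 0 ↔ (l : ℤ) ∣ x := by
  unfold phi
  rw [RingHom.comp_apply, map_eq_zero_iff _ (algebraMap (ZMod l) (AlgebraicClosure (ZMod l))).injective]
  rw [Int.coe_castRingHom, ZMod.intCast_zmod_eq_zero_iff_dvd]

lemma big_prime (hm : 0 < m) {H : ℕ} (hlH : H < l) {v : II m n → ℤ} (hv : v ∈ Box m n H)
    (hbad : ¬ GoodV (cl l v)) :
    (l : ℤ) ∣ DR v ∧ ((PR v).map (phi l)).IsRoot (phi l (v (i0 m n))) ∧
      (PR v).map (phi l) ≠ 0 ∧ ((PR v).map (phi l)).natDegree = m := by
  have hlead : 1 ≤ v (Sum.inl (Fin.last m)) ∧ v (Sum.inl (Fin.last m)) ≤ H := by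
    unfold Box at hv
    rw [Fintype.mem_piFinset] at hv
    have := hv (Sum.inl (Fin.last m))
    unfold box at this
    rw [if_pos (Or.inl rfl), Finset.mem_Icc] at this
    exact this
  have hnd : ¬ (l : ℤ) ∣ v (Sum.inl (Fin.last m)) := by
    intro h
    have := Int.le_of_dvd (by omega) h
    omega
  have hne : phi l (v (Sum.inl (Fin.last m))) ≠ 0 := by
    rw [Ne, phi_eq_zero_iff]; exact hnd
  have hL : Lead (cl l v) := by
    left
    intro h
    apply hnd
    rw [← ZMod.intCast_zmod_eq_zero_iff_dvd]
    exact h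
  have hD : HasDiv (fv (cl l v)) (gv (cl l v)) := by
    by_contra hcon
    exact hbad ⟨hL, hcon⟩
  set w : II m n → AlgebraicClosure (ZMod l) := fun i => phi l (v i) with hw
  have hD2 : HasDiv (fv w) (gv w) := by
    obtain ⟨h, h2, hf, hg⟩ := hD
    refine ⟨h.map (algebraMap (ZMod l) (AlgebraicClosure (ZMod l))), ?_, ?_, ?_⟩
    · rw [natDegree_map]; exact h2
    · have := Polynomial.map_dvd (algebraMap (ZMod l) (AlgebraicClosure (ZMod l))) hf
      rw [fv_map] at this
      exact this
    · have := Polynomial.map_dvd (algebraMap (ZMod l) (AlgebraicClosure (ZMod l))) hg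
      rw [gv_map] at this
      exact this
  obtain ⟨h1, h2⟩ := DR_eq_zero hm (v := w) hne hD2
  refine ⟨?_, ?_, ?_, ?_⟩
  · rw [← phi_eq_zero_iff, DR_map]
    exact h1
  · rw [PR_map]; exact h2
  · rw [PR_map]; exact PR_ne_zero hne
  · rw [PR_map]; exact PR_natDegree hne

open Classical in
lemma card_class (H : ℕ) (hlH : H < l) (r : AlgebraicClosure (ZMod l)) :
    ((box m n H (i0 m n)).filter (fun x : ℤ => phi l x = r)).card ≤ 3 := by
  by_cases hne : ((box m n H (i0 m n)).filter (fun x : ℤ => phi l x = r)).Nonempty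
  · obtain ⟨x0, hx0⟩ := hne
    obtain ⟨h1, h2⟩ := Finset.mem_filter.1 hx0
    have hb : ∀ x ∈ box m n H (i0 m n), -(H : ℤ) ≤ x ∧ x ≤ H := by
      intro x hx
      unfold box at hx
      split_ifs at hx <;> rw [Finset.mem_Icc] at hx <;> constructor <;> omega
    have hsub : (box m n H (i0 m n)).filter (fun x : ℤ => phi l x = r) ⊆
        {x0 - l, x0, x0 + l} := by
      intro x hx
      obtain ⟨h3, h4⟩ := Finset.mem_filter.1 hx
      have h5 : (l : ℤ) ∣ x - x0 := by
        rw [← phi_eq_zero_iff, map_sub, h4, h2, sub_self]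
      obtain ⟨k, hk⟩ := h5
      obtain ⟨a1, a2⟩ := hb x h3
      obtain ⟨b1, b2⟩ := hb x0 h1
      have hlH' : (H : ℤ) < l := by exact_mod_cast hlH
      have hk1 : k < 2 := by
        by_contra hcon
        have : (l : ℤ) * 2 ≤ l * k := by
          apply mul_le_mul_of_nonneg_left (by omega) (by omega)
        omega
      have hk2 : -2 < k := by
        by_contra hcon
        have : (l : ℤ) * k ≤ l * (-2) := by
          apply mul_le_mul_of_nonneg_left (by omega) (by omega)
        omega
      rw [Finset.mem_insert, Finset.mem_insert, Finset.mem_singleton]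
      have : k = -1 ∨ k = 0 ∨ k = 1 := by omega
      rcases this with rfl | rfl | rfl
      · left; omega
      · right; left; omega
      · right; right; omega
    exact le_trans (Finset.card_le_card hsub) Finset.card_le_three
  · rw [Finset.not_nonempty_iff_eq_empty] at hne
    rw [hne]
    simp

end red

/-- the primes above `H` dividing `D` -/
lemma card_big_primes {H C κ : ℕ} (hH : 1 < H) (hHC : C < H) {D : ℤ} (hD : D ≠ 0)
    (hle : D.natAbs ≤ C * H ^ κ) (T : Finset ℕ) (hT : ∀ l ∈ T, l.Prime ∧ H < l ∧ (l : ℤ) ∣ D) :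
    T.card ≤ κ := by
  have h1 : ∏ l ∈ T, l ∣ D.natAbs := by
    apply Finset.prod_primes_dvd
    · intro l hl
      exact (hT l hl).1.prime
    · intro l hl
      exact Int.natCast_dvd.1 (hT l hl).2.2
  have h2 : ∏ l ∈ T, l ≤ D.natAbs := Nat.le_of_dvd (Int.natAbs_pos.2 hD) h1
  have h3 : H ^ T.card ≤ ∏ l ∈ T, l := by
    rw [← Finset.prod_const]
    exact Finset.prod_le_prod' fun l hl => (hT l hl).2.1.le
  have h4 : H ^ T.card < H ^ (κ + 1) := by
    calc H ^ T.card ≤ C * H ^ κ := le_trans h3 (le_trans h2 hle)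
      _ < H * H ^ κ := by
        apply Nat.mul_lt_mul_of_pos_right hHC
        positivity
      _ = H ^ (κ + 1) := by ring
  have := (Nat.pow_lt_pow_iff_right hH).1 h4
  omega

end Pool.Agent.H77RES
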