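import Mathlib

set_option autoImplicit false
set_option linter.unusedSectionVars false

open Polynomial

namespace Pool.Agent.H77RES

/-- `N` is a positive integer such that `N p` and `N q` have integer coefficients, where `(p, q)` is
the pair of rational polynomials with `p f + q g = 1`, `deg p < deg g`, `deg q < deg f`. -/
def IsBez (f g : ℤ[X]) (N : ℕ) : Prop :=
  0 < N ∧ ∃ p q : ℚ[X], p * f.map (Int.castRingHom ℚ) + q * g.map (Int.castRingHom ℚ) = 1 ∧
    p.degree < g.degree ∧ q.degree < f.degree ∧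
    (∃ P : ℤ[X], P.map (Int.castRingHom ℚ) = (N : ℚ) • p) ∧
    ∃ Q : ℤ[X], Q.map (Int.castRingHom ℚ) = (N : ℚ) • q

/-- `B(f,g)`: the least positive integer `N` such that `N p` and `N q` have integer coefficients. -/
noncomputable def BB (f g : ℤ[X]) : ℕ := sInf {N | IsBez f g N}

/-- `R(f,g) = |Res(f,g)|`. -/
noncomputable def RR (f g : ℤ[X]) : ℕ := (resultant f g).natAbs

/-- `f` and `g` share no root in `ℂ`. -/
def Copr (f g : ℤ[X]) : Prop := ∀ z : ℂ, ¬ (aeval z f = 0 ∧ aeval z g = 0)

/-- `f, g` are good at `ℓ`. -/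
def GoodP (l : ℕ) (f g : ℤ[X]) : Prop :=
  (¬ (l : ℤ) ∣ f.leadingCoeff ∨ ¬ (l : ℤ) ∣ g.leadingCoeff) ∧
    ¬ ∃ h : (ZMod l)[X], 2 ≤ h.natDegree ∧ h ∣ f.map (Int.castRingHom (ZMod l)) ∧
      h ∣ g.map (Int.castRingHom (ZMod l))

lemma isBez_iff (f g : ℤ[X]) (N : ℕ) : IsBez f g N ↔
    0 < N ∧ ∃ P Q : ℤ[X], P * f + Q * g = C (N : ℤ) ∧ P.degree < g.degree ∧
      Q.degree < f.degree := by
  have hinj : Function.Injective (Int.castRingHom ℚ) := Int.cast_injective
  constructor
  · rintro ⟨hN, p, q, h1, hp, hq, ⟨P, hP⟩, Q, hQ⟩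
    have hN' : (N : ℚ) ≠ 0 := by exact_mod_cast hN.ne'
    refine ⟨hN, P, Q, ?_, ?_, ?_⟩
    · apply Polynomial.map_injective _ hinj
      rw [Polynomial.map_add, Polynomial.map_mul, Polynomial.map_mul, hP, hQ, smul_mul_assoc,
        smul_mul_assoc, ← smul_add, h1, Polynomial.map_C]
      rw [smul_eq_C_mul, mul_one]
      simp
    · rw [← degree_map_eq_of_injective hinj, hP, smul_eq_C_mul, degree_C_mul hN']
      exact hp
    · rw [← degree_map_eq_of_injective hinj, hQ, smul_eq_C_mul, degree_C_mul hN']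
      exact hq
  · rintro ⟨hN, P, Q, h1, hP, hQ⟩
    have hN' : (N : ℚ) ≠ 0 := by exact_mod_cast hN.ne'
    refine ⟨hN, (N : ℚ)⁻¹ • P.map (Int.castRingHom ℚ), (N : ℚ)⁻¹ • Q.map (Int.castRingHom ℚ),
      ?_, ?_, ?_, ⟨P, ?_⟩, Q, ?_⟩
    · rw [smul_mul_assoc, smul_mul_assoc, ← smul_add, ← Polynomial.map_mul, ← Polynomial.map_mul,
        ← Polynomial.map_add, h1, Polynomial.map_C, smul_C]
      simp [hN']
    · rw [smul_eq_C_mul, degree_C_mul (inv_ne_zero hN'), degree_map_eq_of_injective hinj]
      exact hP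
    · rw [smul_eq_C_mul, degree_C_mul (inv_ne_zero hN'), degree_map_eq_of_injective hinj]
      exact hQ
    · rw [smul_smul, mul_inv_cancel₀ hN', one_smul]
    · rw [smul_smul, mul_inv_cancel₀ hN', one_smul]

/-- every integer polynomial of degree `< m + n` is `f q + g p + c` -/
def Gen (f g : ℤ[X]) : Prop :=
  ∀ u : ℤ[X], u.degree < ((f.natDegree + g.natDegree : ℕ) : WithBot ℕ) →
    ∃ p q : ℤ[X], p.degree < (f.natDegree : WithBot ℕ) ∧ q.degree < (g.natDegree : WithBot ℕ) ∧
      ∃ c : ℤ, u = f * q + g * p + C c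

section

variable {f g : ℤ[X]} (hf : 0 < f.natDegree) (hg : 0 < g.natDegree) (hR : resultant f g ≠ 0)

/-- the Sylvester map -/
noncomputable def sm (f g : ℤ[X]) := sylvesterMap (R := ℤ) f g le_rfl le_rfl

lemma sm_inj (hR : resultant f g ≠ 0) : Function.Injective (sm f g) := by
  rw [← LinearMap.ker_eq_bot, LinearMap.ker_eq_bot']
  intro x hx
  have h1 := congrArg (fun L => L x) (adjSylvester_comp_sylveserMap (R := ℤ) f g le_rfl le_rfl)
  simp only [LinearMap.comp_apply, LinearMap.smul_apply, LinearMap.id_apply] at h1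
  have h2 : sylvesterMap (R := ℤ) f g le_rfl le_rfl x = 0 := hx
  rw [h2, map_zero] at h1
  have h3 := h1.symm
  rcases smul_eq_zero.1 h3 with h | h
  · exact absurd h hR
  · exact h

lemma card_quot (hR : resultant f g ≠ 0) :
    Nat.card (ℤ[X]_(f.natDegree + g.natDegree) ⧸ LinearMap.range (sm f g)) = RR f g := by
  let b := degreeLT.basis ℤ (f.natDegree + g.natDegree)
  let b₁ := ((degreeLT.basis ℤ f.natDegree).prod (degreeLT.basis ℤ g.natDegree)).reindex
    finSumFinEquiv
  let e := LinearEquiv.ofInjective (sm f g) (sm_inj hR)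
  let bN := b₁.map e
  have : Module.Free ℤ (ℤ[X]_(f.natDegree + g.natDegree)) := Module.Free.of_basis b
  have : Module.Finite ℤ (ℤ[X]_(f.natDegree + g.natDegree)) := Module.Finite.of_basis b
  rw [← Submodule.natAbs_det_basis_change b (LinearMap.range (sm f g)) bN]
  unfold RR resultant
  rw [← toMatrix_sylvesterMap' f g le_rfl le_rfl, Module.Basis.det_apply]
  congr 2
  ext i j
  rw [Module.Basis.toMatrix_apply, LinearMap.toMatrix_apply]
  rfl

include hf hg hR in
lemma BB_eq_RR_iff : BB f g = RR f g ↔ Gen f g := by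
  have hf0 : f ≠ 0 := by rintro rfl; simp at hf
  have hg0 : g ≠ 0 := by rintro rfl; simp at hg
  have hone : (1 : ℤ[X]) ∈ ℤ[X]_(f.natDegree + g.natDegree) := by
    rw [mem_degreeLT, degree_one]
    exact_mod_cast (by omega : 0 < f.natDegree + g.natDegree)
  set M := ℤ[X]_(f.natDegree + g.natDegree) with hM
  set W := LinearMap.range (sm f g) with hW
  set x : M ⧸ W := Submodule.Quotient.mk (⟨1, hone⟩ : M) with hx
  have hcard : Nat.card (M ⧸ W) = RR f g := card_quot hR
  have hR0 : RR f g ≠ 0 := by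
    unfold RR
    exact Int.natAbs_ne_zero.2 hR
  have hfin : Finite (M ⧸ W) := Nat.finite_of_card_ne_zero (by rw [hcard]; exact hR0)
  have hmem : ∀ u : M, u ∈ W ↔ ∃ p q : ℤ[X], p.degree < (f.natDegree : WithBot ℕ) ∧
      q.degree < (g.natDegree : WithBot ℕ) ∧ (u : ℤ[X]) = f * q + g * p := by
    intro u
    constructor
    · rintro ⟨⟨p, q⟩, h⟩
      refine ⟨p, q, mem_degreeLT.1 p.2, mem_degreeLT.1 q.2, ?_⟩
      rw [← h]
      rfl
    · rintro ⟨p, q, hp, hq, h⟩
      refine ⟨(⟨p, mem_degreeLT.2 hp⟩, ⟨q, mem_degreeLT.2 hq⟩), ?_⟩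
      apply Subtype.ext
      rw [h]
      rfl
  have hdf : f.degree = (f.natDegree : WithBot ℕ) := degree_eq_natDegree hf0
  have hdg : g.degree = (g.natDegree : WithBot ℕ) := degree_eq_natDegree hg0
  have hbez : ∀ N : ℕ, IsBez f g N ↔ 0 < N ∧ N • x = 0 := by
    intro N
    rw [isBez_iff]
    refine and_congr_right fun _ => ?_
    have h1 : N • x = Submodule.Quotient.mk (N • (⟨1, hone⟩ : M)) := by
      rw [hx, Submodule.Quotient.mk_smul]
    rw [h1, Submodule.Quotient.mk_eq_zero, hmem]
    have h2 : ((N • (⟨1, hone⟩ : M) : M) : ℤ[X]) = C (N : ℤ) := by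
      show N • (1 : ℤ[X]) = C (N : ℤ)
      simp
    rw [h2, hdf, hdg]
    constructor
    · rintro ⟨P, Q, h, hP, hQ⟩
      exact ⟨Q, P, hQ, hP, by rw [← h]; ring⟩
    · rintro ⟨p, q, hp, hq, h⟩
      exact ⟨q, p, by rw [h]; ring, hq, hp⟩
  have hB : BB f g = addOrderOf x := by
    unfold BB
    apply le_antisymm
    · exact Nat.sInf_le ((hbez _).2 ⟨addOrderOf_pos x, addOrderOf_nsmul_eq_zero x⟩)
    · refine le_csInf ⟨_, (hbez _).2 ⟨addOrderOf_pos x, addOrderOf_nsmul_eq_zero x⟩⟩ ?_
      intro N hN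
      obtain ⟨hN0, hNx⟩ := (hbez N).1 hN
      exact addOrderOf_le_of_nsmul_eq_zero hN0 hNx
  rw [hB, ← hcard, ← Nat.card_zmultiples]
  constructor
  · intro h u hu
    have htop : AddSubgroup.zmultiples x = ⊤ := AddSubgroup.eq_top_of_card_eq _ h
    have h1 : (Submodule.Quotient.mk (⟨u, mem_degreeLT.2 hu⟩ : M) : M ⧸ W) ∈
        AddSubgroup.zmultiples x := by rw [htop]; trivial
    obtain ⟨c, hc⟩ := AddSubgroup.mem_zmultiples_iff.1 h1
    have h2 : (Submodule.Quotient.mk ((⟨u, mem_degreeLT.2 hu⟩ : M) - c • (⟨1, hone⟩ : M)) :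
        M ⧸ W) = 0 := by
      rw [Submodule.Quotient.mk_sub, Submodule.Quotient.mk_smul, ← hc]
      simp [hx]
    rw [Submodule.Quotient.mk_eq_zero, hmem] at h2
    obtain ⟨p, q, hp, hq, h3⟩ := h2
    refine ⟨p, q, hp, hq, c, ?_⟩
    have h4 : u - c • (1 : ℤ[X]) = f * q + g * p := h3
    rw [← h4]
    simp
  · intro h
    have htop : AddSubgroup.zmultiples x = ⊤ := by
      rw [eq_top_iff]
      rintro y -
      obtain ⟨u, rfl⟩ := Submodule.Quotient.mk_surjective _ y
      obtain ⟨p, q, hp, hq, c, hc⟩ := h u (mem_degreeLT.1 u.2)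
      rw [AddSubgroup.mem_zmultiples_iff]
      refine ⟨c, ?_⟩
      rw [hx, ← Submodule.Quotient.mk_smul, eq_comm, ← sub_eq_zero, ← Submodule.Quotient.mk_sub,
        Submodule.Quotient.mk_eq_zero, hmem]
      refine ⟨p, q, hp, hq, ?_⟩
      show (u : ℤ[X]) - c • (1 : ℤ[X]) = _
      rw [hc]
      simp
    rw [htop]
    exact AddSubgroup.card_top

end

/-- The local statement over a field. -/
lemma field_gen_aux {K : Type*} [Field K] {m n : ℕ} (hm : 0 < m) {f g : K[X]}
    (hf : f.natDegree = m) (hg : g.natDegree ≤ n)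
    (hh : ¬ ∃ h : K[X], 2 ≤ h.natDegree ∧ h ∣ f ∧ h ∣ g) (u : K[X])
    (hu : u.degree < ((m + n : ℕ) : WithBot ℕ)) :
    ∃ p q : K[X], p.degree < (m : WithBot ℕ) ∧ q.degree < (n : WithBot ℕ) ∧
      ∃ c : K, u = f * q + g * p + C c := by
  classical
  have hf0 : f ≠ 0 := by rintro rfl; simp at hf; omega
  set h := EuclideanDomain.gcd f g with hh'
  have hhf : h ∣ f := EuclideanDomain.gcd_dvd_left f g
  have hhg : h ∣ g := EuclideanDomain.gcd_dvd_right f g
  have hh0 : h ≠ 0 := fun h0 => hf0 (EuclideanDomain.gcd_eq_zero_iff.1 h0).1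
  have hdeg : h.natDegree ≤ 1 := by
    by_contra hc
    exact hh ⟨h, by omega, hhf, hhg⟩
  obtain ⟨a, b, hab⟩ : ∃ a b, h = f * a + g * b := ⟨_, _, EuclideanDomain.gcd_eq_gcd_ab f g⟩
  have hdiv : u = h * (u / h) + u % h := (EuclideanDomain.div_add_mod u h).symm
  have hmod : ∃ c : K, u % h = C c := by
    have h1 : (u % h).degree < h.degree := EuclideanDomain.mod_lt u hh0
    have h2 : h.degree ≤ ((1 : ℕ) : WithBot ℕ) := degree_le_of_natDegree_le hdeg
    have h3 : (u % h).degree < ((1 : ℕ) : WithBot ℕ) := lt_of_lt_of_le h1 h2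
    have h4 : (u % h).natDegree = 0 := by
      rcases eq_or_ne (u % h) 0 with h0 | h0
      · rw [h0, natDegree_zero]
      · rw [degree_eq_natDegree h0] at h3
        have : (u % h).natDegree < 1 := by exact_mod_cast h3
        omega
    exact ⟨_, eq_C_of_natDegree_eq_zero h4⟩
  obtain ⟨c, hc⟩ := hmod
  set v := u / h with hv
  have hdf : f.degree = (m : WithBot ℕ) := by rw [degree_eq_natDegree hf0, hf]
  have hbv : b * v = f * (b * v / f) + (b * v) % f :=
    (EuclideanDomain.div_add_mod (b * v) f).symm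
  have hr : ((b * v) % f).degree < (m : WithBot ℕ) := by
    rw [← hdf]; exact EuclideanDomain.mod_lt _ hf0
  set k := b * v / f with hk
  set r := (b * v) % f with hr'
  refine ⟨r, a * v + g * k, hr, ?_, c, ?_⟩
  · -- degree bound
    have h5 : f * (a * v + g * k) = u - C c - g * r := by
      have h6 : u - C c = h * v := by rw [← hc]; rw [sub_eq_iff_eq_add]; exact hdiv
      rw [h6, hab]
      have h7 : g * r = g * (b * v) - g * (f * k) := by
        rw [hbv]; ring
      rw [h7]
      ring
    have h8 : (u - C c - g * r).degree < ((m + n : ℕ) : WithBot ℕ) := by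
      refine lt_of_le_of_lt (degree_sub_le _ _) (max_lt ?_ ?_)
      · refine lt_of_le_of_lt (degree_sub_le _ _) (max_lt hu ?_)
        refine lt_of_le_of_lt degree_C_le ?_
        exact_mod_cast (by omega : 0 < m + n)
      · rcases eq_or_ne g 0 with hg0 | hg0
        · rw [hg0, zero_mul, degree_zero]
          exact WithBot.bot_lt_coe _
        rcases eq_or_ne r 0 with hr0 | hr0
        · rw [hr0, mul_zero, degree_zero]
          exact WithBot.bot_lt_coe _
        · rw [degree_mul, degree_eq_natDegree hg0, degree_eq_natDegree hr0]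
          rw [degree_eq_natDegree hr0] at hr
          have hr2 : r.natDegree < m := by exact_mod_cast hr
          exact_mod_cast (by omega : g.natDegree + r.natDegree < m + n)
    rcases eq_or_ne (a * v + g * k) 0 with h0 | h0
    · rw [h0, degree_zero]
      exact WithBot.bot_lt_coe _
    · rw [← h5, degree_mul, hdf, degree_eq_natDegree h0] at h8
      rw [degree_eq_natDegree h0]
      have : m + (a * v + g * k).natDegree < m + n := by exact_mod_cast h8
      exact_mod_cast (by omega : (a * v + g * k).natDegree < n)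
  · calc u = h * v + u % h := hdiv
      _ = (f * a + g * b) * v + C c := by rw [hc, ← hab]
      _ = f * (a * v) + g * (b * v) + C c := by ring
      _ = f * (a * v) + g * (f * k + r) + C c := by rw [← hbv]
      _ = _ := by ring

lemma field_gen {K : Type*} [Field K] {m n : ℕ} (hm : 0 < m) (hn : 0 < n) {f g : K[X]}
    (hf : f.natDegree ≤ m) (hg : g.natDegree ≤ n) (hl : f.coeff m ≠ 0 ∨ g.coeff n ≠ 0)
    (hh : ¬ ∃ h : K[X], 2 ≤ h.natDegree ∧ h ∣ f ∧ h ∣ g) (u : K[X])
    (hu : u.degree < ((m + n : ℕ) : WithBot ℕ)) :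
    ∃ p q : K[X], p.degree < (m : WithBot ℕ) ∧ q.degree < (n : WithBot ℕ) ∧
      ∃ c : K, u = f * q + g * p + C c := by
  rcases hl with hl | hl
  · exact field_gen_aux hm (le_antisymm hf (le_natDegree_of_ne_zero hl)) hg hh u hu
  · obtain ⟨p, q, hp, hq, c, h⟩ := field_gen_aux hn
      (le_antisymm hg (le_natDegree_of_ne_zero hl)) hf
      (fun ⟨h, h1, h2, h3⟩ => hh ⟨h, h1, h3, h2⟩) u (by rwa [add_comm] at hu)
    exact ⟨q, p, hq, hp, c, by rw [h]; ring⟩

/-- `Gen` is equivalent to goodness at every prime. -/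
lemma gen_iff {f g : ℤ[X]} (hf : 0 < f.natDegree) (hg : 0 < g.natDegree)
    (hR : resultant f g ≠ 0) : Gen f g ↔ ∀ l : ℕ, l.Prime → GoodP l f g := by
  constructor
  · intro h l hl
    have : Fact l.Prime := ⟨hl⟩
    refine ⟨?_, ?_⟩
    · by_contra hcon
      push Not at hcon
      obtain ⟨p, q, hp, hq, c, hc⟩ := h (X ^ (f.natDegree + g.natDegree - 1)) (by
        rw [degree_X_pow]
        exact_mod_cast (by omega : f.natDegree + g.natDegree - 1 < f.natDegree + g.natDegree))
      have hq' : q.natDegree ≤ g.natDegree - 1 := by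
        rcases eq_or_ne q 0 with h0 | h0
        · simp [h0]
        · rw [degree_eq_natDegree h0] at hq
          have : q.natDegree < g.natDegree := by exact_mod_cast hq
          omega
      have hp' : p.natDegree ≤ f.natDegree - 1 := by
        rcases eq_or_ne p 0 with h0 | h0
        · simp [h0]
        · rw [degree_eq_natDegree h0] at hp
          have : p.natDegree < f.natDegree := by exact_mod_cast hp
          omega
      have h1 := congrArg (fun w => w.coeff (f.natDegree + g.natDegree - 1)) hc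
      simp only [coeff_X_pow, if_true, coeff_add] at h1
      have e1 : (f * q).coeff (f.natDegree + g.natDegree - 1) =
          f.coeff f.natDegree * q.coeff (g.natDegree - 1) := by
        have : f.natDegree + g.natDegree - 1 = f.natDegree + (g.natDegree - 1) := by omega
        rw [this, coeff_mul_add_eq_of_natDegree_le le_rfl hq']
      have e2 : (g * p).coeff (f.natDegree + g.natDegree - 1) =
          g.coeff g.natDegree * p.coeff (f.natDegree - 1) := by
        have : f.natDegree + g.natDegree - 1 = g.natDegree + (f.natDegree - 1) := by omega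
        rw [this, coeff_mul_add_eq_of_natDegree_le le_rfl hp']
      rw [e1, e2, coeff_C_of_ne_zero (by omega)] at h1
      have h2 : (l : ℤ) ∣ 1 := by
        rw [h1, add_zero]
        exact dvd_add (Dvd.dvd.mul_right hcon.1 _) (Dvd.dvd.mul_right hcon.2 _)
      have := Int.natCast_dvd_natCast.1 (by simpa using h2 : ((l : ℕ) : ℤ) ∣ ((1 : ℕ) : ℤ))
      exact hl.one_lt.ne' (Nat.dvd_one.1 this)
    · rintro ⟨k, hk, hkf, hkg⟩
      obtain ⟨p, q, hp, hq, c, hc⟩ := h X (by
        refine lt_of_le_of_lt degree_X_le ?_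
        exact_mod_cast (by omega : 1 < f.natDegree + g.natDegree))
      have h1 := congrArg (Polynomial.map (Int.castRingHom (ZMod l))) hc
      rw [Polynomial.map_X, Polynomial.map_add, Polynomial.map_add, Polynomial.map_mul,
        Polynomial.map_mul, Polynomial.map_C] at h1
      have h2 : k ∣ X - C ((Int.castRingHom (ZMod l)) c) := by
        rw [h1, add_sub_cancel_right]
        exact dvd_add (Dvd.dvd.mul_right hkf _) (Dvd.dvd.mul_right hkg _)
      have h3 := natDegree_le_of_dvd h2 (X_sub_C_ne_zero _)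
      rw [natDegree_X_sub_C] at h3
      omega
  · intro h
    by_contra hcon
    -- the finite quotient
    have hf0 : f ≠ 0 := by rintro rfl; simp at hf
    have hone : (1 : ℤ[X]) ∈ ℤ[X]_(f.natDegree + g.natDegree) := by
      rw [mem_degreeLT, degree_one]
      exact_mod_cast (by omega : 0 < f.natDegree + g.natDegree)
    set M := ℤ[X]_(f.natDegree + g.natDegree) with hM
    set W : Submodule ℤ M := LinearMap.range (sm f g) ⊔ Submodule.span ℤ {(⟨1, hone⟩ : M)} with hW
    have hfinW : Finite (M ⧸ LinearMap.range (sm f g)) := Nat.finite_of_card_ne_zero (by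
      rw [card_quot hR]
      unfold RR
      exact Int.natAbs_ne_zero.2 hR)
    have hle : LinearMap.range (sm f g) ≤ W := le_sup_left
    have hfin : Finite (M ⧸ W) := by
      refine Finite.of_surjective (Submodule.mapQ _ _ LinearMap.id (by simpa using hle) :
        (M ⧸ LinearMap.range (sm f g)) →ₗ[ℤ] (M ⧸ W)) ?_
      intro y
      obtain ⟨u, rfl⟩ := Submodule.Quotient.mk_surjective _ y
      exact ⟨Submodule.Quotient.mk u, rfl⟩
    have hmemW : ∀ (p q : ℤ[X]) (c : ℤ), p.degree < (f.natDegree : WithBot ℕ) →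
        q.degree < (g.natDegree : WithBot ℕ) → ∀ u : M, (u : ℤ[X]) = f * q + g * p + C c →
        u ∈ W := by
      intro p q c hp hq u hu
      have h1 : u = sm f g (⟨p, mem_degreeLT.2 hp⟩, ⟨q, mem_degreeLT.2 hq⟩) +
          c • (⟨1, hone⟩ : M) := by
        apply Subtype.ext
        rw [hu]
        show _ = (f * q + g * p) + c • (1 : ℤ[X])
        simp
      rw [h1]
      exact Submodule.add_mem_sup ⟨_, rfl⟩
        (Submodule.smul_mem _ _ (Submodule.mem_span_singleton_self _))
    -- multiplication by primes is surjective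
    have hsurj : ∀ l : ℕ, l.Prime → Function.Surjective (fun y : M ⧸ W => l • y) := by
      intro l hl y
      have : Fact l.Prime := ⟨hl⟩
      obtain ⟨u, rfl⟩ := Submodule.Quotient.mk_surjective _ y
      obtain ⟨h1, h2⟩ := h l hl
      set φ := Int.castRingHom (ZMod l) with hφ
      have hcf : (f.map φ).coeff f.natDegree = φ f.leadingCoeff := by rw [coeff_map]; rfl
      have hcg : (g.map φ).coeff g.natDegree = φ g.leadingCoeff := by rw [coeff_map]; rfl
      have hz : ∀ a : ℤ, φ a = 0 ↔ (l : ℤ) ∣ a := fun a => by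
        rw [hφ]; exact ZMod.intCast_zmod_eq_zero_iff_dvd a l
      obtain ⟨p, q, hp, hq, c, hc⟩ := field_gen hf hg (f := f.map φ) (g := g.map φ)
        natDegree_map_le natDegree_map_le (by
          rw [hcf, hcg, Ne, Ne, hz, hz]
          exact h1) h2 ((u : ℤ[X]).map φ)
        (lt_of_le_of_lt degree_map_le (mem_degreeLT.1 u.2))
      have hφs : Function.Surjective φ := ZMod.intCast_surjective
      obtain ⟨P, hP, hPd⟩ := exists_degree_eq_of_mem_lifts (Polynomial.map_surjective φ hφs p)
      obtain ⟨Q, hQ, hQd⟩ := exists_degree_eq_of_mem_lifts (Polynomial.map_surjective φ hφs q)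
      obtain ⟨c', hc'⟩ := hφs c
      have hker : (((u : ℤ[X]) - (f * Q + g * P + C c')).map φ) = 0 := by
        rw [Polynomial.map_sub, Polynomial.map_add, Polynomial.map_add, Polynomial.map_mul,
          Polynomial.map_mul, Polynomial.map_C, hP, hQ, hc', ← hc, sub_self]
      have hdvd : C (l : ℤ) ∣ ((u : ℤ[X]) - (f * Q + g * P + C c')) := by
        rw [C_dvd_iff_dvd_coeff]
        intro i
        rw [← hz, ← coeff_map, hker, coeff_zero]
      obtain ⟨w, hw⟩ := hdvd
      have hl0 : (l : ℤ) ≠ 0 := by exact_mod_cast hl.ne_zero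
      have hPd' : P.degree < (f.natDegree : WithBot ℕ) := by rw [hPd]; exact hp
      have hQd' : Q.degree < (g.natDegree : WithBot ℕ) := by rw [hQd]; exact hq
      have hmem2 : f * Q + g * P + C c' ∈ M := by
        have h5 : f * Q + g * P + C c' =
          ((sm f g (⟨P, mem_degreeLT.2 hPd'⟩, ⟨Q, mem_degreeLT.2 hQd'⟩) +
          c' • (⟨1, hone⟩ : M) : M) : ℤ[X]) := by
          show _ = (f * Q + g * P) + c' • (1 : ℤ[X])
          simp
        rw [h5]
        exact Subtype.property _
      have hwM : w ∈ M := by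
        rw [hM, mem_degreeLT]
        have h6 : ((u : ℤ[X]) - (f * Q + g * P + C c')) ∈ M := M.sub_mem u.2 hmem2
        rw [hw, hM, mem_degreeLT, degree_C_mul hl0] at h6
        exact h6
      refine ⟨Submodule.Quotient.mk ⟨w, hwM⟩, ?_⟩
      show l • (Submodule.Quotient.mk (⟨w, hwM⟩ : M) : M ⧸ W) = Submodule.Quotient.mk u
      rw [← Submodule.Quotient.mk_smul, eq_comm, ← sub_eq_zero, ← Submodule.Quotient.mk_sub,
        Submodule.Quotient.mk_eq_zero]
      refine hmemW P Q c' hPd' hQd' _ ?_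
      show (u : ℤ[X]) - l • w = _
      have h7 : l • w = C (l : ℤ) * w := by
        rw [nsmul_eq_mul]; simp
      rw [h7, ← hw]
      ring
    -- conclusion
    have hne : ¬ Subsingleton (M ⧸ W) := by
      intro hss
      apply hcon
      intro u hu
      have h1 : (Submodule.Quotient.mk (⟨u, mem_degreeLT.2 hu⟩ : M) : M ⧸ W) = 0 :=
        Subsingleton.elim _ _
      rw [Submodule.Quotient.mk_eq_zero, hW, Submodule.mem_sup] at h1
      obtain ⟨y, ⟨⟨p, q⟩, hpq⟩, z, hz, hyz⟩ := h1
      obtain ⟨c, rfl⟩ := Submodule.mem_span_singleton.1 hz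
      refine ⟨p, q, mem_degreeLT.1 p.2, mem_degreeLT.1 q.2, c, ?_⟩
      have h2 := congrArg (fun t : M => (t : ℤ[X])) hyz
      rw [← hpq] at h2
      have h3 : f * (q : ℤ[X]) + g * p + c • (1 : ℤ[X]) = u := h2
      rw [← h3]
      simp
    have hcard1 : Nat.card (M ⧸ W) ≠ 1 := by
      intro h1
      exact hne (Nat.card_eq_one_iff_unique.1 h1).1
    obtain ⟨l, hl, hld⟩ := Nat.exists_prime_and_dvd hcard1
    have : Fact l.Prime := ⟨hl⟩
    obtain ⟨y, hy⟩ := exists_prime_addOrderOf_dvd_card' (G := M ⧸ W) l hld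
    have hinj : Function.Injective (fun y : M ⧸ W => l • y) :=
      Finite.injective_iff_surjective.2 (hsurj l hl)
    have h1 : l • y = 0 := by rw [← hy]; exact addOrderOf_nsmul_eq_zero y
    have h2 : y = 0 := hinj (by simpa using h1)
    rw [h2, addOrderOf_zero] at hy
    exact hl.one_lt.ne hy

end Pool.Agent.H77RES
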