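import Pool.Agent.H77RES.Dens
import Pool.Agent.H77RES.Local

set_option autoImplicit false
set_option linter.unusedSectionVars false

open Polynomial Filter Topology

namespace Pool.Agent.H77RES

variable {m n : ℕ}

/-- the set `𝒫_k(H)` -/
def PK (k H : ℕ) : Set ℤ[X] :=
  {f | f.natDegree = k ∧ 0 < f.leadingCoeff ∧ ∀ i, |f.coeff i| ≤ (H : ℤ)}

/-- coprime pairs -/
def SS (m n H : ℕ) : Set (ℤ[X] × ℤ[X]) :=
  {x | x.1 ∈ PK m H ∧ x.2 ∈ PK n H ∧ Copr x.1 x.2}

/-- coprime pairs with `B = R` -/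
def EE (m n H : ℕ) : Set (ℤ[X] × ℤ[X]) :=
  {x | x ∈ SS m n H ∧ BB x.1 x.2 = RR x.1 x.2}

/-- the ratio -/
noncomputable def rho (m n H : ℕ) : ℝ := ((EE m n H).ncard : ℝ) / ((SS m n H).ncard : ℝ)

lemma pv_PK_iff {k H : ℕ} (w : Fin (k + 1) → ℤ) :
    pv w ∈ PK k H ↔ (∀ i, |w i| ≤ H) ∧ 0 < w (Fin.last k) := by
  constructor
  · rintro ⟨h1, h2, h3⟩
    refine ⟨fun i => ?_, ?_⟩
    · have := h3 i
      rwa [pv_coeff_fin] at this
    · rw [leadingCoeff, h1, pv_coeff_last] at h2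
      exact h2
  · rintro ⟨h1, h2⟩
    have hd : (pv w).natDegree = k := by
      refine le_antisymm (pv_natDegree_le _) (le_natDegree_of_ne_zero ?_)
      rw [pv_coeff_last]
      exact h2.ne'
    refine ⟨hd, ?_, fun i => ?_⟩
    · rw [leadingCoeff, hd, pv_coeff_last]; exact h2
    · rw [pv_coeff]
      split_ifs with h
      · exact h1 _
      · simp

lemma mem_Box_iff (H : ℕ) (v : II m n → ℤ) :
    v ∈ Box m n H ↔ fv v ∈ PK m H ∧ gv v ∈ PK n H := by
  unfold fv gv
  rw [pv_PK_iff, pv_PK_iff]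
  unfold Box
  rw [Fintype.mem_piFinset]
  constructor
  · intro h
    refine ⟨⟨fun i => ?_, ?_⟩, ⟨fun i => ?_, ?_⟩⟩
    · have := h (Sum.inl i)
      unfold box at this
      split_ifs at this <;> rw [Finset.mem_Icc] at this <;> rw [abs_le] <;> constructor <;> omega
    · have := h (Sum.inl (Fin.last m))
      unfold box at this
      rw [if_pos (Or.inl rfl), Finset.mem_Icc] at this
      omega
    · have := h (Sum.inr i)
      unfold box at this
      split_ifs at this <;> rw [Finset.mem_Icc] at this <;> rw [abs_le] <;> constructor <;> omega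
    · have := h (Sum.inr (Fin.last n))
      unfold box at this
      rw [if_pos (Or.inr rfl), Finset.mem_Icc] at this
      omega
  · rintro ⟨⟨h1, h2⟩, h3, h4⟩ i
    unfold box
    by_cases h : i = Sum.inl (Fin.last m) ∨ i = Sum.inr (Fin.last n)
    · rw [if_pos h]
      rcases h with rfl | rfl
      · have h5 := abs_le.1 (h1 (Fin.last m))
        rw [Finset.mem_Icc]
        omega
      · have h5 := abs_le.1 (h3 (Fin.last n))
        rw [Finset.mem_Icc]
        omega
    · rw [if_neg h, Finset.mem_Icc]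
      rcases i with i | i
      · exact abs_le.1 (h1 i)
      · exact abs_le.1 (h3 i)

lemma copr_iff {H : ℕ} (hm : 0 < m) {v : II m n → ℤ} (hv : v ∈ Box m n H) :
    Copr (fv v) (gv v) ↔ RS v ≠ 0 := by
  obtain ⟨⟨hf, -, -⟩, hg, -, -⟩ := (mem_Box_iff H v).1 hv
  have hinj : Function.Injective (Int.castRingHom ℂ) := Int.cast_injective
  have h1 : resultant ((fv v).map (Int.castRingHom ℂ)) ((gv v).map (Int.castRingHom ℂ)) =
      Int.castRingHom ℂ (RS v) := by
    rw [natDegree_map_eq_of_injective hinj, natDegree_map_eq_of_injective hinj, hf, hg,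
      resultant_map_map]
    rfl
  have h2 : RS v = 0 ↔ resultant ((fv v).map (Int.castRingHom ℂ))
      ((gv v).map (Int.castRingHom ℂ)) = 0 := by
    rw [h1, map_eq_zero_iff _ hinj]
  rw [Ne, h2, resultant_eq_zero_iff]
  have h3 : (fv v).map (Int.castRingHom ℂ) ≠ 0 := by
    intro h
    have := (Polynomial.map_eq_zero_iff hinj).1 h
    rw [this, natDegree_zero] at hf
    omega
  have h4 : IsCoprime ((fv v).map (Int.castRingHom ℂ)) ((gv v).map (Int.castRingHom ℂ)) ↔
      Copr (fv v) (gv v) := by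
    rw [isCoprime_iff_aeval_ne_zero_of_isAlgClosed ℂ ℂ]
    unfold Copr
    refine forall_congr' fun z => ?_
    have e1 : ∀ f : ℤ[X], aeval z (f.map (Int.castRingHom ℂ)) = aeval z f := by
      intro f
      exact aeval_map_algebraMap (A := ℂ) (B := ℂ) z f
    rw [e1, e1]
    tauto
  rw [← h4]
  tauto

lemma good_iff {H : ℕ} (hm : 0 < m) (hn : 0 < n) {v : II m n → ℤ} (hv : v ∈ Box m n H)
    (hR : RS v ≠ 0) :
    BB (fv v) (gv v) = RR (fv v) (gv v) ↔ ∀ l : ℕ, l.Prime → GoodV (cl l v) := by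
  obtain ⟨⟨hf, -, -⟩, hg, -, -⟩ := (mem_Box_iff H v).1 hv
  have hR' : resultant (fv v) (gv v) ≠ 0 := by
    rw [hf, hg]; exact hR
  rw [BB_eq_RR_iff (by omega) (by omega) hR', gen_iff (by omega) (by omega) hR']
  refine forall_congr' fun l => ?_
  refine imp_congr_right fun hl => ?_
  unfold GoodP GoodV Lead HasDiv
  have e1 : (fv v).leadingCoeff = v (Sum.inl (Fin.last m)) := by
    rw [leadingCoeff, hf]; exact pv_coeff_last _
  have e2 : (gv v).leadingCoeff = v (Sum.inr (Fin.last n)) := by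
    rw [leadingCoeff, hg]; exact pv_coeff_last _
  have e3 : (fv v).map (Int.castRingHom (ZMod l)) = fv (cl l v) := fv_map _ _
  have e4 : (gv v).map (Int.castRingHom (ZMod l)) = gv (cl l v) := gv_map _ _
  rw [e1, e2, e3, e4, ← ZMod.intCast_zmod_eq_zero_iff_dvd, ← ZMod.intCast_zmod_eq_zero_iff_dvd]
  rfl

open Classical in
lemma ncard_of (H : ℕ) (Q : ℤ[X] × ℤ[X] → Prop) (P : (II m n → ℤ) → Prop)
    (hPQ : ∀ v ∈ Box m n H, Q (fv v, gv v) ↔ P v) :
    ({x : ℤ[X] × ℤ[X] | (x.1 ∈ PK m H ∧ x.2 ∈ PK n H) ∧ Q x}.ncard : ℝ) =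
      dens m n H P * (Box m n H).card := by
  have h1 : {x : ℤ[X] × ℤ[X] | (x.1 ∈ PK m H ∧ x.2 ∈ PK n H) ∧ Q x} =
      (fun v : II m n → ℤ => (fv v, gv v)) '' (((Box m n H).filter P : Finset _) : Set _) := by
    ext ⟨f, g⟩
    constructor
    · rintro ⟨⟨hf, hg⟩, hQ⟩
      dsimp only at hf hg
      refine ⟨Sum.elim (fun i : Fin (m + 1) => f.coeff i) (fun i : Fin (n + 1) => g.coeff i), ?_, ?_⟩
      · have e1 : fv (Sum.elim (fun i : Fin (m + 1) => f.coeff i)
            (fun i : Fin (n + 1) => g.coeff i)) = f := pv_of f hf.1.le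
        have e2 : gv (Sum.elim (fun i : Fin (m + 1) => f.coeff i)
            (fun i : Fin (n + 1) => g.coeff i)) = g := pv_of g hg.1.le
        have e3 : (Sum.elim (fun i : Fin (m + 1) => f.coeff i)
            (fun i : Fin (n + 1) => g.coeff i)) ∈ Box m n H := by
          rw [mem_Box_iff, e1, e2]
          exact ⟨hf, hg⟩
        refine Finset.mem_coe.2 (Finset.mem_filter.2 ⟨e3, ?_⟩)
        rw [← hPQ _ e3, e1, e2]
        exact hQ
      · exact Prod.ext (pv_of f hf.1.le) (pv_of g hg.1.le)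
    · rintro ⟨v, hv, hvx⟩
      obtain ⟨h2, h3⟩ := Finset.mem_filter.1 (Finset.mem_coe.1 hv)
      have h4 := (mem_Box_iff H v).1 h2
      have h5 := (hPQ v h2).2 h3
      rw [← hvx]
      exact ⟨h4, h5⟩
  rw [h1, Set.ncard_image_of_injective, Set.ncard_coe_finset, dens_eq]
  · by_cases h0 : ((Box m n H).card : ℝ) = 0
    · have h2 : ((Box m n H).filter P).card ≤ (Box m n H).card := Finset.card_filter_le _ _
      have h3 : (Box m n H).card = 0 := by exact_mod_cast h0
      have h4 : ((Box m n H).filter P).card = 0 := by omega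
      rw [h4, h0]
      simp
    · rw [div_mul_cancel₀ _ h0]
  · intro v w h
    have h1 := pv_inj (congrArg Prod.fst h)
    have h2 := pv_inj (congrArg Prod.snd h)
    funext i
    rcases i with i | i
    · exact congrFun h1 i
    · exact congrFun h2 i

/-- the limit of `e` from the limits of `a M` -/
lemma lim_aux {e u : ℕ → ℝ} {a : ℕ → ℕ → ℝ} {G : ℕ → ℝ} {L K : ℝ}
    (hu : Tendsto u atTop (𝓝 0)) (ha : ∀ M, Tendsto (a M) atTop (𝓝 (G M)))
    (hG : Tendsto G atTop (𝓝 L)) (h1 : ∀ M H, e H ≤ a M H)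
    (h2 : ∀ M : ℕ, 0 < M → ∀ᶠ H in atTop, a M H ≤ e H + u H + K / M) :
    Tendsto e atTop (𝓝 L) := by
  rw [tendsto_order]
  constructor
  · intro L' hL'
    have h3 : Tendsto (fun M : ℕ => G M - K / M) atTop (𝓝 (L - 0)) :=
      hG.sub (tendsto_const_div_atTop_nhds_zero_nat K)
    rw [sub_zero] at h3
    obtain ⟨M, hM1, hM2⟩ := ((h3.eventually (lt_mem_nhds hL')).and (eventually_gt_atTop 0)).exists
    have h4 : Tendsto (fun H => a M H - u H - K / M) atTop (𝓝 (G M - 0 - K / M)) :=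
      ((ha M).sub hu).sub tendsto_const_nhds
    rw [sub_zero] at h4
    filter_upwards [h4.eventually (lt_mem_nhds hM1), h2 M hM2] with H h5 h6
    linarith
  · intro L' hL'
    obtain ⟨M, hM⟩ := (hG.eventually (gt_mem_nhds hL')).exists
    filter_upwards [(ha M).eventually (gt_mem_nhds hM)] with H h5
    exact lt_of_le_of_lt (h1 M H) h5

lemma dens_true {H : ℕ} (hH : 0 < H) : dens m n H (fun _ => True) = 1 := by
  rw [dens_eq, Finset.filter_true]
  exact div_self (Box_card_pos hH).ne'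

lemma dens_le_one {H : ℕ} (hH : 0 < H) (P : (II m n → ℤ) → Prop) : dens m n H P ≤ 1 := by
  rw [← dens_true (m := m) (n := n) hH]
  exact dens_mono fun _ _ _ => trivial

lemma tendsto_s {n : ℕ} (hn : 0 < n) (m : ℕ) :
    Tendsto (fun H => dens m n H (fun v => RS v ≠ 0)) atTop (𝓝 1) := by
  obtain ⟨C, hC⟩ := dens_RS hn m
  have h1 : Tendsto (fun H : ℕ => 1 - C / (H : ℝ)) atTop (𝓝 (1 - 0)) :=
    tendsto_const_nhds.sub (tendsto_const_div_atTop_nhds_zero_nat C)
  rw [sub_zero] at h1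
  refine tendsto_of_tendsto_of_tendsto_of_le_of_le' h1 tendsto_const_nhds ?_ ?_
  · filter_upwards [eventually_gt_atTop 0] with H hH
    have h2 := dens_true (m := m) (n := n) hH
    have h3 : dens m n H (fun _ => True) ≤ dens m n H (fun v => RS v ≠ 0 ∨ RS v = 0) :=
      dens_mono fun v _ _ => (ne_or_eq (RS v) 0)
    have h4 := dens_or_le H (fun v : II m n → ℤ => RS v ≠ 0) (fun v => RS v = 0)
    have h5 := hC H hH
    linarith
  · filter_upwards [eventually_gt_atTop 0] with H hH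
    exact dens_le_one hH _

lemma tendsto_e (m n : ℕ) :
    Tendsto (fun H => dens (m + 2) (n + 2) H
      (fun v => RS v ≠ 0 ∧ ∀ l : ℕ, l.Prime → GoodV (cl l v))) atTop
      (𝓝 (36 / Real.pi ^ 4)) := by
  obtain ⟨C1, hC1⟩ := dens_RS (n := n + 2) (by omega) (m + 2)
  obtain ⟨C2, H2, hC2⟩ := dens_big (n := n + 2) (by omega) (m := m + 2) (by omega)
  refine lim_aux (u := fun H : ℕ => C1 / (H : ℝ) + C2 / (H : ℝ))
    (a := fun M H => dens (m + 2) (n + 2) H (fun v => ∀ l ∈ prs M, GoodV (cl l v)))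
    (G := fun M => ∏ l ∈ prs M, ((gc (m + 2) (n + 2) l : ℝ) / (l : ℝ) ^ (m + 2 + (n + 2) + 2)))
    (K := 2 ^ (m + n + 7)) ?_ (fun M => tendsto_good _ _ M) ?_ ?_ ?_
  · have := (tendsto_const_div_atTop_nhds_zero_nat C1).add
      (tendsto_const_div_atTop_nhds_zero_nat C2)
    rwa [add_zero] at this
  · refine tendsto_euler.congr fun M => ?_
    refine Finset.prod_congr rfl fun l hl => ?_
    exact (gc_eq m n (mem_prs.1 hl).1).symm
  · intro M H
    exact dens_mono fun v _ h l hl => h.2 l (mem_prs.1 hl).1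
  · intro M hM
    filter_upwards [eventually_ge_atTop M, eventually_gt_atTop H2, eventually_gt_atTop 0]
      with H h1 h2 h3
    have h4 : dens (m + 2) (n + 2) H (fun v => ∀ l ∈ prs M, GoodV (cl l v)) ≤
        dens (m + 2) (n + 2) H (fun v =>
          ((RS v ≠ 0 ∧ ∀ l : ℕ, l.Prime → GoodV (cl l v)) ∨ RS v = 0) ∨
          ((∃ l : ℕ, l.Prime ∧ H < l ∧ ¬ GoodV (cl l v)) ∨
          ∃ l : ℕ, l.Prime ∧ M < l ∧ l ≤ H ∧ ¬ GoodV (cl l v))) := by
      refine dens_mono fun v _ h => ?_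
      by_cases hR : RS v = 0
      · exact Or.inl (Or.inr hR)
      · by_cases hb : ∀ l : ℕ, l.Prime → GoodV (cl l v)
        · exact Or.inl (Or.inl ⟨hR, hb⟩)
        · push Not at hb
          obtain ⟨l, hl, hbad⟩ := hb
          right
          by_cases hlH : H < l
          · exact Or.inl ⟨l, hl, hlH, hbad⟩
          · refine Or.inr ⟨l, hl, ?_, by omega, hbad⟩
            by_contra hcon
            exact hbad (h l (mem_prs.2 ⟨hl, by omega⟩))
    have h5 := dens_or_le H (fun v : II (m + 2) (n + 2) → ℤ =>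
      (RS v ≠ 0 ∧ ∀ l : ℕ, l.Prime → GoodV (cl l v)) ∨ RS v = 0)
      (fun v => (∃ l : ℕ, l.Prime ∧ H < l ∧ ¬ GoodV (cl l v)) ∨
          ∃ l : ℕ, l.Prime ∧ M < l ∧ l ≤ H ∧ ¬ GoodV (cl l v))
    have h6 := dens_or_le H (fun v : II (m + 2) (n + 2) → ℤ =>
      (RS v ≠ 0 ∧ ∀ l : ℕ, l.Prime → GoodV (cl l v))) (fun v => RS v = 0)
    have h7 := dens_or_le H (fun v : II (m + 2) (n + 2) → ℤ =>
      ∃ l : ℕ, l.Prime ∧ H < l ∧ ¬ GoodV (cl l v))
      (fun v => ∃ l : ℕ, l.Prime ∧ M < l ∧ l ≤ H ∧ ¬ GoodV (cl l v))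
    have h8 := hC1 H h3
    have h9 := hC2 H h2
    have h10 := dens_mid m n hM h1
    linarith

theorem rho_tendsto (m n : ℕ) (hm : 2 ≤ m) (hn : 2 ≤ n) :
    Tendsto (fun H => rho m n H) atTop (𝓝 (36 / Real.pi ^ 4)) := by
  obtain ⟨m, rfl⟩ : ∃ k, m = k + 2 := ⟨m - 2, by omega⟩
  obtain ⟨n, rfl⟩ : ∃ k, n = k + 2 := ⟨n - 2, by omega⟩
  have h1 := (tendsto_e m n).div (tendsto_s (n := n + 2) (by omega) (m + 2)) one_ne_zero
  rw [div_one] at h1
  refine h1.congr' ?_
  filter_upwards [eventually_gt_atTop 0] with H hH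
  have e1 : ((SS (m + 2) (n + 2) H).ncard : ℝ) =
      dens (m + 2) (n + 2) H (fun v => RS v ≠ 0) * (Box (m + 2) (n + 2) H).card := by
    rw [← ncard_of H (fun x => Copr x.1 x.2) _ (fun v hv => copr_iff (by omega) hv)]
    congr 2
    ext x
    unfold SS
    simp only [Set.mem_ofPred_eq, and_assoc]
  have e2 : ((EE (m + 2) (n + 2) H).ncard : ℝ) =
      dens (m + 2) (n + 2) H (fun v => RS v ≠ 0 ∧ ∀ l : ℕ, l.Prime → GoodV (cl l v)) *
        (Box (m + 2) (n + 2) H).card := by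
    rw [← ncard_of H (fun x => Copr x.1 x.2 ∧ BB x.1 x.2 = RR x.1 x.2) _ (fun v hv => ?_)]
    · congr 2
      ext x
      unfold EE SS
      simp only [Set.mem_ofPred_eq, and_assoc]
    · constructor
      · rintro ⟨h2, h3⟩
        have h4 := (copr_iff (by omega) hv).1 h2
        exact ⟨h4, (good_iff (by omega) (by omega) hv h4).1 h3⟩
      · rintro ⟨h2, h3⟩
        exact ⟨(copr_iff (by omega) hv).2 h2, (good_iff (by omega) (by omega) hv h2).2 h3⟩
  unfold rho
  rw [e1, e2, mul_div_mul_right _ _ (Box_card_pos hH).ne']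
  rfl

end Pool.Agent.H77RES
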